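import Pool.Agent.Lib.MP_dd84fd_nt.LX.SSt
import Pool.Agent.Lib.MP_dd84fd_nt.GX.Mu
import Pool.Agent.Lib.MP_dd84fd_nt.GX.Ker
import Pool.Agent.Lib.MP_dd84fd_nt.GX.Den2
import Pool.Agent.Lib.MP_dd84fd_nt.GX.TIexp
import Pool.Agent.Lib.MP_dd84fd_nt.GX.TIIexp
import Pool.Agent.Lib.MP_dd84fd_nt.GX.FFb

/-!
# TX-Low: the structure theorem at small heights, no lower bound for `#E`

`U` arbitrary (`VB`), `u` structured (`JX.Str`), `ω` a weight on a block `(a, b)` with `2^b ≤ X^(τ/8)`.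
`x = ω U K`: `nm1 x ≤ 48 2^b L √δ #E` (`GX.mu_sum`), and `≤ 48 2^b L √(2^(b+1)) #E` (`NoAP` with `ρ = 1`
is trivial).  Type I: `GX.typeI_exp`, `GX.typeI_ker`.  Type II: `GX.typeII_exp`, `GX.ker` with
`Rk ≤ 2X`, so `Bker M N ≤ C L (5X + N Nk)`; `M ≤ 2 X^(1-τ)`; `GX.mu_lcm`.
-/

set_option autoImplicit false

namespace Pool.MP_dd84fd_nt.TX

open Finset Pool.MP_67663b_nt.Odd Pool.MP_dd84fd_nt.En Pool.MP_dd84fd_nt.E2 Pool.MP_dd84fd_nt.LS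
open Pool.MP_dd84fd_nt.L2G (nrm)
open Pool.MP_dd84fd_nt.GX Pool.MP_dd84fd_nt.HX
open Pool.MP_dd84fd_nt.IX (dl yB)
open Pool.MP_dd84fd_nt.JX (Adm ZJ DecJ Str ty1 ty2 Ok1 Ok2 str_ok ty1_sum ty2_sum TIJ1 TIJ2)
open Pool.MP_dd84fd_nt.LX (PhU pair_u)

theorem fib (G : ℕ) [NeZero G] (X a : ℕ) (x : ZMod G → ℂ)
    (h : ∀ j, x j ≠ 0 → 2 ^ a ≤ qd X (al G j) ∧ qd X (al G j) < 2 ^ (a + 1)) :
    nm1 G x ≤ ∑ q ∈ Ico (2 ^ a) (2 * 2 ^ a), mu G X x q := by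
  unfold nm1 mu
  rw [← mul_sum]
  apply mul_le_mul_of_nonneg_left _ (by positivity)
  have h1 : ∑ q ∈ Ico (2 ^ a) (2 * 2 ^ a),
      ∑ j ∈ (univ : Finset (ZMod G)).filter (fun j => qd X (al G j) = q), ‖x j‖ =
      ∑ j : ZMod G, ∑ q ∈ Ico (2 ^ a) (2 * 2 ^ a), if qd X (al G j) = q then ‖x j‖ else 0 := by
    rw [sum_comm]
    apply sum_congr rfl
    intro q _
    rw [sum_filter]
  rw [h1]
  apply sum_le_sum
  intro j _
  by_cases hj : x j = 0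
  · rw [hj, norm_zero]
    apply sum_nonneg
    intro q _
    split_ifs <;> simp
  · have h2 := h j hj
    rw [sum_ite_eq, if_pos]
    rw [mem_Ico]
    refine ⟨h2.1, ?_⟩
    have := h2.2
    rw [pow_succ] at this
    omega

theorem xx_supp {G : ℕ} [NeZero G] {X a b : ℕ} {V ω : ZMod G → ℂ} {E : Finset ℕ} {e : ℕ → ℂ}
    (hω : Wt G X a b ω) : ∀ j, xx G V ω E e j ≠ 0 → inBlk X a b (al G j) := by
  intro j hj
  apply hω.2 j
  intro h0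
  apply hj
  unfold xx
  rw [h0, zero_mul, zero_mul]

/-- `nm1 x ≤ 48 2^b L √δ #E` -/
theorem nm1_blk : ∃ X0 : ℕ, ∀ X : ℕ, X0 ≤ X → ∀ (G : ℕ) [NeZero G], 3 * X ≤ G →
    ∀ V : ZMod G → ℂ, VB G X V → ∀ (a b : ℕ) (ω : ZMod G → ℂ), Wt G X a b ω →
    ∀ E : Finset ℕ, E ⊆ Icc 1 X → ∀ e : ℕ → ℂ, (∀ n, ‖e n‖ ≤ 1) → ∀ ρ δ : ℝ, 0 ≤ ρ → 0 ≤ δ →
    NoAP G X b ω E ρ δ →
    nm1 G (xx G V ω E e) ≤ 48 * 2 ^ b * Real.log X * Real.sqrt δ * E.card := by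
  obtain ⟨X0, h⟩ := mu_sum
  refine ⟨X0, fun X hX G _ hG V hV a b ω hω E hE e he ρ δ hρ hδ hN => ?_⟩
  refine (fib G X a (xx G V ω E e) fun j hj => ?_).trans
    (h X hX G hG V hV a b ω hω E hE e he ρ δ hρ hδ hN)
  have := xx_supp hω j hj
  exact ⟨this.1, this.2.1⟩

/-- the trivial case -/
theorem nm1_triv : ∃ X0 : ℕ, ∀ X : ℕ, X0 ≤ X → ∀ (G : ℕ) [NeZero G], 3 * X ≤ G →
    ∀ V : ZMod G → ℂ, VB G X V → ∀ (a b : ℕ) (ω : ZMod G → ℂ), Wt G X a b ω →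
    ∀ E : Finset ℕ, E ⊆ Icc 1 X → ∀ e : ℕ → ℂ, (∀ n, ‖e n‖ ≤ 1) →
    nm1 G (xx G V ω E e) ≤ 48 * 2 ^ b * Real.log X * Real.sqrt (2 ^ (b + 1)) * E.card := by
  obtain ⟨X0, h⟩ := nm1_blk
  refine ⟨max X0 1, fun X hX G _ hG V hV a b ω hω E hE e he => ?_⟩
  refine h X ((le_max_left _ _).trans hX) G hG V hV a b ω hω E hE e he 1 (2 ^ (b + 1))
    zero_le_one (by positivity) ?_
  intro j hj
  have hX1 : 1 ≤ X := (le_max_right _ _).trans hX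
  obtain ⟨k1, k2, k3, k4⟩ := hω.2 j hj
  obtain ⟨-, -, t3, -⟩ := ht_spec X hX1 (al G j)
  constructor
  · rw [one_mul]
    have h1 : ((qd X (al G j)).divisors.card : ℝ) ≤ qd X (al G j) := by
      exact_mod_cast Nat.card_divisors_le_self _
    exact h1.trans (t3.trans k4.le)
  · intro c
    rw [one_mul]
    unfold inAP
    exact_mod_cast Finset.card_filter_le _ _

/-! ### The kernel -/

theorem group (G : ℕ) [NeZero G] (X a : ℕ) (x : ZMod G → ℂ)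
    (hx : ∀ j, x j ≠ 0 → qd X (al G j) ∈ Ico (2 ^ a) (2 * 2 ^ a)) (φ : ℕ → ℝ) :
    (1 / (G : ℝ)) * ∑ j : ZMod G, ‖x j‖ * φ (qd X (al G j)) =
      ∑ q ∈ Ico (2 ^ a) (2 * 2 ^ a), mu G X x q * φ q := by
  have h1 : ∀ q ∈ Ico (2 ^ a) (2 * 2 ^ a), mu G X x q * φ q =
      (1 / (G : ℝ)) * ∑ j ∈ (univ : Finset (ZMod G)).filter (fun j => qd X (al G j) = q),
        ‖x j‖ * φ (qd X (al G j)) := by
    intro q _
    unfold mu
    rw [mul_assoc, Finset.sum_mul]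
    congr 1
    refine Finset.sum_congr rfl fun j hj => ?_
    rw [(Finset.mem_filter.1 hj).2]
  rw [Finset.sum_congr rfl h1, ← Finset.mul_sum,
    Finset.sum_fiberwise_eq_sum_filter univ (Ico (2 ^ a) (2 * 2 ^ a)) (fun j => qd X (al G j))]
  congr 1
  symm
  refine Finset.sum_filter_of_ne fun j _ hne => hx j fun h0 => hne ?_
  rw [h0, norm_zero, zero_mul]

theorem nk_sum (G : ℕ) [NeZero G] (X a b : ℕ) (x : ZMod G → ℂ)
    (hx : ∀ j, x j ≠ 0 → inBlk X a b (al G j)) :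
    (1 / (G : ℝ)) ^ 2 * ∑ j : ZMod G, ∑ j' : ZMod G, ‖x j‖ * ‖x j'‖ * Nk X (al G j) (al G j') ≤
      (X : ℝ) * 2 ^ (a + 1) / 2 ^ b * ∑ q ∈ Ico (2 ^ a) (2 * 2 ^ a),
        ∑ q' ∈ Ico (2 ^ a) (2 * 2 ^ a), mu G X x q * mu G X x q' / (Nat.lcm q q' : ℝ) := by
  have hx' : ∀ j, x j ≠ 0 → qd X (al G j) ∈ Ico (2 ^ a) (2 * 2 ^ a) := by
    intro j hj
    have h := hx j hj
    rw [Finset.mem_Ico]
    refine ⟨h.1, ?_⟩
    have h2 := h.2.1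
    rw [pow_succ] at h2
    omega
  have hpt : ∀ j j' : ZMod G, ‖x j‖ * ‖x j'‖ * Nk X (al G j) (al G j') ≤
      (X : ℝ) * 2 ^ (a + 1) / 2 ^ b *
        (‖x j‖ * (‖x j'‖ * (1 / (Nat.lcm (qd X (al G j)) (qd X (al G j')) : ℝ)))) := by
    intro j j'
    by_cases h0 : x j = 0
    · rw [h0]
      simp
    · obtain ⟨_, h2, h3, _⟩ := hx j h0
      have hq : (qd X (al G j) : ℝ) ≤ 2 ^ (a + 1) := by exact_mod_cast h2.le
      have hb : (0 : ℝ) < 2 ^ b := by positivity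
      have hN : Nk X (al G j) (al G j') ≤ (X : ℝ) * 2 ^ (a + 1) / 2 ^ b *
          (1 / (Nat.lcm (qd X (al G j)) (qd X (al G j')) : ℝ)) := by
        unfold Nk
        rw [← div_div, mul_one_div]
        refine div_le_div_of_nonneg_right ?_ (by positivity)
        exact div_le_div₀ (by positivity) (mul_le_mul_of_nonneg_left hq (by positivity)) hb h3
      calc ‖x j‖ * ‖x j'‖ * Nk X (al G j) (al G j')
          ≤ ‖x j‖ * ‖x j'‖ * ((X : ℝ) * 2 ^ (a + 1) / 2 ^ b *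
            (1 / (Nat.lcm (qd X (al G j)) (qd X (al G j')) : ℝ))) :=
            mul_le_mul_of_nonneg_left hN (by positivity)
        _ = _ := by ring
  have h1 : (1 / (G : ℝ)) ^ 2 * ∑ j : ZMod G, ∑ j' : ZMod G,
      ‖x j‖ * ‖x j'‖ * Nk X (al G j) (al G j') ≤ (1 / (G : ℝ)) ^ 2 * ∑ j : ZMod G, ∑ j' : ZMod G,
      (X : ℝ) * 2 ^ (a + 1) / 2 ^ b *
        (‖x j‖ * (‖x j'‖ * (1 / (Nat.lcm (qd X (al G j)) (qd X (al G j')) : ℝ)))) :=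
    mul_le_mul_of_nonneg_left (Finset.sum_le_sum fun j _ => Finset.sum_le_sum fun j' _ => hpt j j')
      (by positivity)
  refine h1.trans (le_of_eq ?_)
  have h2 : ∀ j : ZMod G, ∑ j' : ZMod G, (X : ℝ) * 2 ^ (a + 1) / 2 ^ b *
        (‖x j‖ * (‖x j'‖ * (1 / (Nat.lcm (qd X (al G j)) (qd X (al G j')) : ℝ)))) =
      (X : ℝ) * 2 ^ (a + 1) / 2 ^ b * (‖x j‖ *
        ∑ j' : ZMod G, ‖x j'‖ * (1 / (Nat.lcm (qd X (al G j)) (qd X (al G j')) : ℝ))) := by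
    intro j
    rw [Finset.mul_sum, Finset.mul_sum]
  rw [Finset.sum_congr rfl fun j _ => h2 j, ← Finset.mul_sum]
  have h3 : (1 / (G : ℝ)) ^ 2 * ((X : ℝ) * 2 ^ (a + 1) / 2 ^ b * ∑ j : ZMod G, ‖x j‖ *
        ∑ j' : ZMod G, ‖x j'‖ * (1 / (Nat.lcm (qd X (al G j)) (qd X (al G j')) : ℝ))) =
      (X : ℝ) * 2 ^ (a + 1) / 2 ^ b * ((1 / (G : ℝ)) * ∑ j : ZMod G, ‖x j‖ *
        ((1 / (G : ℝ)) * ∑ j' : ZMod G, ‖x j'‖ *
          (1 / (Nat.lcm (qd X (al G j)) (qd X (al G j')) : ℝ)))) := by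
    have h4 : ∑ j : ZMod G, ‖x j‖ * ((1 / (G : ℝ)) * ∑ j' : ZMod G, ‖x j'‖ *
          (1 / (Nat.lcm (qd X (al G j)) (qd X (al G j')) : ℝ))) =
        (1 / (G : ℝ)) * ∑ j : ZMod G, ‖x j‖ * ∑ j' : ZMod G, ‖x j'‖ *
          (1 / (Nat.lcm (qd X (al G j)) (qd X (al G j')) : ℝ)) := by
      rw [Finset.mul_sum]
      exact Finset.sum_congr rfl fun j _ => by ring
    rw [h4]
    ring
  rw [h3]
  congr 1
  have h5 : ∀ j : ZMod G, (1 / (G : ℝ)) * ∑ j' : ZMod G, ‖x j'‖ *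
      (1 / (Nat.lcm (qd X (al G j)) (qd X (al G j')) : ℝ)) =
      ∑ q' ∈ Ico (2 ^ a) (2 * 2 ^ a), mu G X x q' *
        (1 / (Nat.lcm (qd X (al G j)) q' : ℝ)) := fun j =>
    group G X a x hx' (fun q' => 1 / (Nat.lcm (qd X (al G j)) q' : ℝ))
  simp only [h5]
  rw [group G X a x hx' (fun q => ∑ q' ∈ Ico (2 ^ a) (2 * 2 ^ a), mu G X x q' *
        (1 / (Nat.lcm q q' : ℝ)))]
  refine Finset.sum_congr rfl fun q _ => ?_
  rw [Finset.mul_sum]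
  exact Finset.sum_congr rfl fun q' _ => by ring

theorem rk_le (X : ℕ) (α α' : ℝ) : Rk X α α' ≤ 2 * X := by
  classical
  unfold Rk
  have hX : (0 : ℝ) ≤ X := Nat.cast_nonneg X
  have h1 : ∀ i ∈ range (Nat.log 2 X / 8 + 2),
      (if rel X (2 ^ i) α α' then (X : ℝ) / 2 ^ i else 0) ≤ X * (1 / 2) ^ i := by
    intro i _
    have h2 : (X : ℝ) / 2 ^ i = X * (1 / 2) ^ i := by
      rw [one_div, inv_pow, div_eq_mul_inv]
    split_ifs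
    · rw [h2]
    · positivity
  refine (Finset.sum_le_sum h1).trans ?_
  rw [← Finset.mul_sum]
  have h2 := sum_geometric_two_le (Nat.log 2 X / 8 + 2)
  nlinarith

theorem ker5 : ∃ C : ℝ, 0 < C ∧ ∃ X0 : ℕ, ∀ X : ℕ, X0 ≤ X → ∀ M N : ℕ, 1 ≤ M → 1 ≤ N →
    M * N ≤ X → (N : ℝ) ≤ Real.sqrt X → ∀ α α' : ℝ,
    Bker M N α α' ≤ C * Real.log X * (5 * X + N * Nk X α α') := by
  obtain ⟨C, hC, X0, h⟩ := ker
  refine ⟨C, hC, max X0 1, fun X hX M N hM hN hMN hNs α α' => ?_⟩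
  have hX1 : (1 : ℝ) ≤ X := by exact_mod_cast (le_max_right _ _).trans hX
  have hX0 : (0 : ℝ) < X := by linarith
  refine (h X ((le_max_left _ _).trans hX) M N hM hN hMN α α').trans ?_
  have hL : 0 ≤ Real.log X := Real.log_nonneg hX1
  refine mul_le_mul_of_nonneg_left ?_ (by positivity)
  have h1 : (N : ℝ) ^ 2 ≤ X := by
    calc (N : ℝ) ^ 2 ≤ (Real.sqrt X) ^ 2 := pow_le_pow_left₀ (Nat.cast_nonneg _) hNs 2
      _ = X := Real.sq_sqrt hX0.le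
  have h2 : (N : ℝ) * Real.sqrt X ≤ X := by
    calc (N : ℝ) * Real.sqrt X ≤ Real.sqrt X * Real.sqrt X :=
          mul_le_mul_of_nonneg_right hNs (Real.sqrt_nonneg _)
      _ = X := Real.mul_self_sqrt hX0.le
  have h3 : (X : ℝ) ^ (7 / 8 : ℝ) ≤ X := by
    calc (X : ℝ) ^ (7 / 8 : ℝ) ≤ (X : ℝ) ^ (1 : ℝ) :=
          Real.rpow_le_rpow_of_exponent_le hX1 (by norm_num)
      _ = X := Real.rpow_one _
  have h4 := rk_le X α α'
  linarith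

theorem sum5 (G : ℕ) [NeZero G] (X a b : ℕ) (x : ZMod G → ℂ)
    (hx : ∀ j, x j ≠ 0 → inBlk X a b (al G j)) (M N : ℕ) (c : ℝ) (hc : 0 ≤ c)
    (hB : ∀ α α' : ℝ, Bker M N α α' ≤ c * (5 * X + N * Nk X α α')) :
    (1 / (G : ℝ)) ^ 2 * ∑ j : ZMod G, ∑ j' : ZMod G,
        ‖x j‖ * ‖x j'‖ * Bker M N (al G j) (al G j') ≤
      c * (5 * X * nm1 G x ^ 2 + N * ((X : ℝ) * 2 ^ (a + 1) / 2 ^ b *
        ∑ q ∈ Ico (2 ^ a) (2 * 2 ^ a), ∑ q' ∈ Ico (2 ^ a) (2 * 2 ^ a),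
          mu G X x q * mu G X x q' / (Nat.lcm q q' : ℝ))) := by
  have h1 : (1 / (G : ℝ)) ^ 2 * ∑ j : ZMod G, ∑ j' : ZMod G,
        ‖x j‖ * ‖x j'‖ * Bker M N (al G j) (al G j') ≤
      (1 / (G : ℝ)) ^ 2 * ∑ j : ZMod G, ∑ j' : ZMod G,
        (c * (5 * X * (‖x j‖ * ‖x j'‖)) +
          c * (N * (‖x j‖ * ‖x j'‖ * Nk X (al G j) (al G j')))) := by
    refine mul_le_mul_of_nonneg_left (Finset.sum_le_sum fun j _ =>
      Finset.sum_le_sum fun j' _ => ?_) (by positivity)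
    calc ‖x j‖ * ‖x j'‖ * Bker M N (al G j) (al G j')
        ≤ ‖x j‖ * ‖x j'‖ * (c * (5 * X + N * Nk X (al G j) (al G j'))) :=
          mul_le_mul_of_nonneg_left (hB _ _) (by positivity)
      _ = _ := by ring
  refine h1.trans ?_
  simp only [Finset.sum_add_distrib, ← Finset.mul_sum]
  have e1 : (1 / (G : ℝ)) ^ 2 * ∑ j : ZMod G, ‖x j‖ * ∑ j' : ZMod G, ‖x j'‖ = nm1 G x ^ 2 := by
    unfold nm1
    rw [mul_pow, ← Finset.sum_mul, sq (∑ j : ZMod G, ‖x j‖)]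
  have e2 := nk_sum G X a b x hx
  set S1 := ∑ j : ZMod G, ‖x j‖ * ∑ j' : ZMod G, ‖x j'‖ with hS1
  set S2 := ∑ j : ZMod G, ∑ j' : ZMod G, ‖x j‖ * ‖x j'‖ * Nk X (al G j) (al G j') with hS2
  have e4 : (1 / (G : ℝ)) ^ 2 * (c * (5 * X * S1) + c * (N * S2)) =
      c * (5 * X * ((1 / (G : ℝ)) ^ 2 * S1) + N * ((1 / (G : ℝ)) ^ 2 * S2)) := by
    ring
  rw [e4, e1]
  refine mul_le_mul_of_nonneg_left ?_ hc
  have hN0 : (0 : ℝ) ≤ N := Nat.cast_nonneg N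
  have := mul_le_mul_of_nonneg_left e2 hN0
  linarith

theorem log_ge {X : ℕ} (hX : 3 ≤ X) : 1 ≤ Real.log X := by
  have hXr : (3 : ℝ) ≤ X := by exact_mod_cast hX
  rw [Real.le_log_iff_exp_le (by linarith)]
  exact (Real.exp_one_lt_d9.le.trans (by norm_num)).trans hXr

/-- the arithmetic of the type II bound -/
theorem tii_fin {X M N C L E δ A B s1 lc τ : ℝ} (hX : 1 ≤ X) (hM : 0 < M) (hN : 0 < N)
    (hτ : 0 < τ) (h1 : X ^ τ / 2 ≤ N) (h2 : M * N ≤ X) (hC : 0 < C) (hL : 1 ≤ L) (hE : 0 ≤ E)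
    (hδ : 0 ≤ δ) (hA : 0 < A) (hB : 0 < B) (hBX : B ≤ X ^ (τ / 8)) (hs0 : 0 ≤ s1)
    (hs : s1 ≤ 48 * B * L * Real.sqrt (B * 2) * E)
    (hlc : lc ≤ 2304 * (B / A) * L ^ 2 * δ * E ^ 2) :
    M * (C * L * (5 * X * s1 ^ 2 + N * (X * (A * 2) / B * lc))) ≤
      ((46080 * C + 1) * L ^ 2 * (Real.sqrt δ + X ^ (-(τ / 4))) * X * E) ^ 2 := by
  have hX0 : 0 < X := by linarith
  have hL0 : 0 < L := by linarith
  have hM2 : M * X ^ τ ≤ 2 * X := by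
    have h3 : M * (X ^ τ / 2) ≤ X := (mul_le_mul_of_nonneg_left h1 hM.le).trans h2
    linarith
  have p4 : 0 < X ^ (-(τ / 4)) := Real.rpow_pos_of_pos hX0 _
  -- the first term
  have g1 : M * (5 * X * s1 ^ 2) ≤ 46080 * L ^ 2 * (X ^ (-(τ / 4)) * X * E) ^ 2 := by
    have e1 : s1 ^ 2 ≤ 4608 * B ^ 3 * L ^ 2 * E ^ 2 := by
      calc s1 ^ 2 ≤ (48 * B * L * Real.sqrt (B * 2) * E) ^ 2 := pow_le_pow_left₀ hs0 hs 2
        _ = 48 ^ 2 * B ^ 2 * L ^ 2 * (Real.sqrt (B * 2)) ^ 2 * E ^ 2 := by ring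
        _ = 4608 * B ^ 3 * L ^ 2 * E ^ 2 := by
            rw [Real.sq_sqrt (by positivity)]
            ring
    have e2 : B ^ 3 ≤ X ^ (3 * τ / 8) := by
      calc B ^ 3 ≤ (X ^ (τ / 8)) ^ 3 := pow_le_pow_left₀ hB.le hBX 3
        _ = X ^ (3 * τ / 8) := by
            rw [← Real.rpow_natCast, ← Real.rpow_mul hX0.le]
            congr 1
            push_cast
            ring
    have e3 : M ≤ 2 * X * X ^ (-τ) := by
      rw [Real.rpow_neg hX0.le, ← div_eq_mul_inv, le_div_iff₀ (Real.rpow_pos_of_pos hX0 _)]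
      exact hM2
    have e4 : (X ^ (-(τ / 4)) * X * E) ^ 2 = X ^ (-(τ / 2)) * X ^ 2 * E ^ 2 := by
      rw [mul_pow, mul_pow, ← Real.rpow_natCast (X ^ (-(τ / 4))) 2, ← Real.rpow_mul hX0.le]
      congr 3
      push_cast
      ring
    have e5 : X ^ (-τ) * X ^ (3 * τ / 8) ≤ X ^ (-(τ / 2)) := by
      rw [← Real.rpow_add hX0]
      exact Real.rpow_le_rpow_of_exponent_le hX (by linarith)
    have p1 : 0 < X ^ (-τ) := Real.rpow_pos_of_pos hX0 _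
    rw [e4]
    calc M * (5 * X * s1 ^ 2) ≤ (2 * X * X ^ (-τ)) * (5 * X * (4608 * B ^ 3 * L ^ 2 * E ^ 2)) := by
          gcongr
      _ ≤ (2 * X * X ^ (-τ)) * (5 * X * (4608 * X ^ (3 * τ / 8) * L ^ 2 * E ^ 2)) := by
          gcongr
      _ = 46080 * L ^ 2 * (X ^ (-τ) * X ^ (3 * τ / 8)) * X ^ 2 * E ^ 2 := by ring
      _ ≤ 46080 * L ^ 2 * X ^ (-(τ / 2)) * X ^ 2 * E ^ 2 := by gcongr
      _ = _ := by ring
  have g2 : M * (N * (X * (A * 2) / B * lc)) ≤ 46080 * L ^ 2 * (Real.sqrt δ * X * E) ^ 2 := by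
    have h3 : X * (A * 2) / B * lc ≤ 4608 * X * L ^ 2 * δ * E ^ 2 := by
      calc X * (A * 2) / B * lc ≤ X * (A * 2) / B * (2304 * (B / A) * L ^ 2 * δ * E ^ 2) :=
            mul_le_mul_of_nonneg_left hlc (by positivity)
        _ = _ := by field_simp; ring
    have e4 : (Real.sqrt δ * X * E) ^ 2 = δ * X ^ 2 * E ^ 2 := by
      rw [mul_pow, mul_pow, Real.sq_sqrt hδ]
    rw [e4]
    calc M * (N * (X * (A * 2) / B * lc)) = (M * N) * (X * (A * 2) / B * lc) := by ring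
      _ ≤ (M * N) * (4608 * X * L ^ 2 * δ * E ^ 2) :=
          mul_le_mul_of_nonneg_left h3 (by positivity)
      _ ≤ X * (4608 * X * L ^ 2 * δ * E ^ 2) := mul_le_mul_of_nonneg_right h2 (by positivity)
      _ = 4608 * (L ^ 2 * (δ * X ^ 2 * E ^ 2)) := by ring
      _ ≤ 46080 * (L ^ 2 * (δ * X ^ 2 * E ^ 2)) :=
          mul_le_mul_of_nonneg_right (by norm_num) (by positivity)
      _ = _ := by ring
  set u : ℝ := X ^ (-(τ / 4)) * X * E with hu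
  set v : ℝ := Real.sqrt δ * X * E with hv
  have hu0 : 0 ≤ u := by positivity
  have hv0 : 0 ≤ v := by positivity
  have e6 : (46080 * C + 1) * L ^ 2 * (Real.sqrt δ + X ^ (-(τ / 4))) * X * E =
      (46080 * C + 1) * L ^ 2 * (v + u) := by
    rw [hu, hv]; ring
  rw [e6]
  have h3 : M * (C * L * (5 * X * s1 ^ 2 + N * (X * (A * 2) / B * lc))) =
      C * L * (M * (5 * X * s1 ^ 2) + M * (N * (X * (A * 2) / B * lc))) := by ring
  rw [h3]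
  have h5 : L ^ 3 ≤ L ^ 4 := pow_le_pow_right₀ hL (by norm_num)
  have h6 : 46080 * C ≤ (46080 * C + 1) ^ 2 := by nlinarith
  calc C * L * (M * (5 * X * s1 ^ 2) + M * (N * (X * (A * 2) / B * lc)))
      ≤ C * L * (46080 * L ^ 2 * u ^ 2 + 46080 * L ^ 2 * v ^ 2) := by gcongr
    _ = (46080 * C) * L ^ 3 * (u ^ 2 + v ^ 2) := by ring
    _ ≤ (46080 * C + 1) ^ 2 * L ^ 4 * (v + u) ^ 2 := by
        have h7 : u ^ 2 + v ^ 2 ≤ (v + u) ^ 2 := by nlinarith [mul_nonneg hu0 hv0]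
        gcongr
    _ = _ := by ring

theorem tii_low (τ : ℝ) (hτ : 0 < τ) : ∃ C : ℝ, 0 < C ∧ ∃ X0 : ℕ, ∀ X : ℕ, X0 ≤ X →
    ∀ (G : ℕ) [NeZero G], 3 * X ≤ G → ∀ V : ZMod G → ℂ, VB G X V → ∀ (a b : ℕ) (ω : ZMod G → ℂ),
    Wt G X a b ω → (2 : ℝ) ^ b ≤ (X : ℝ) ^ (τ / 8) → ∀ E : Finset ℕ, E ⊆ Icc 1 X →
    ∀ e : ℕ → ℂ, (∀ n, ‖e n‖ ≤ 1) → ∀ ρ δ : ℝ, 0 ≤ ρ → 0 ≤ δ → NoAP G X b ω E ρ δ →
    ∀ N : ℕ, (X : ℝ) ^ τ / 2 ≤ N → (N : ℝ) ≤ Real.sqrt X →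
    TIJ2 X N (FF G (xx G V ω E e)) (C * (Real.log X) ^ 2 *
      (Real.sqrt δ + (X : ℝ) ^ (-(τ / 4))) * X * E.card) := by
  obtain ⟨C, hC, X1, hker⟩ := ker5
  obtain ⟨X2, hnm⟩ := nm1_triv
  obtain ⟨X3, hmu⟩ := mu_lcm
  refine ⟨46080 * C + 1, by positivity, max X1 (max X2 (max X3 3)), ?_⟩
  intro X hX G _ hG V hVB a b ω hω hb E hE e he ρ δ hρ hδ hno N hN1 hN2 M t ca cb ht hca hcb hM hMN
  simp only [max_le_iff] at hX
  obtain ⟨hX1, hX2, hX3, hX4⟩ := hX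
  have hXr : (3 : ℝ) ≤ X := by exact_mod_cast hX4
  have hX0 : (0 : ℝ) < X := by linarith
  have hL : 1 ≤ Real.log X := log_ge hX4
  have hn := hnm X hX2 G hG V hVB a b ω hω E hE e he
  have hlcm := hmu X hX3 G hG V hVB a b ω hω E hE e he ρ δ hρ hδ hno
  set x := xx G V ω E e with hxdef
  have hx : ∀ j, x j ≠ 0 → inBlk X a b (al G j) := xx_supp hω
  have hNpos : (0 : ℝ) < N := by
    have : (0 : ℝ) < (X : ℝ) ^ τ / 2 := by positivity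
    linarith
  have hN0 : 1 ≤ N := by
    have : 0 < N := by exact_mod_cast hNpos
    exact this
  have hM0 : (0 : ℝ) < M := by exact_mod_cast hM
  have hexp := typeII_exp G x M N t ca cb hca hcb
  have hMr : (M : ℝ) * N ≤ X := by exact_mod_cast hMN
  have hsum := sum5 G X a b x hx M N (C * Real.log X) (by positivity)
    (fun α α' => hker X hX1 M N hM hN0 hMN hN2 α α')
  have hnm0 : 0 ≤ nm1 G x := by
    unfold nm1
    positivity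
  have hfin := tii_fin (X := (X : ℝ)) (M := (M : ℝ)) (N := (N : ℝ)) (C := C) (L := Real.log X)
    (E := (E.card : ℝ)) (δ := δ) (A := (2 : ℝ) ^ a) (B := (2 : ℝ) ^ b) (s1 := nm1 G x) (τ := τ)
    (by linarith) hM0 hNpos hτ hN1 hMr hC hL (by positivity) hδ (by positivity) (by positivity)
    hb hnm0 (by rw [← pow_succ]; exact hn) hlcm
  refine le_of_sq_le_sq (hexp.trans ((mul_le_mul_of_nonneg_left hsum hM0.le).trans ?_))
    (by positivity)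
  rw [pow_succ (2 : ℝ) a]
  exact hfin

theorem ti_low (th e τ : ℝ) (hA : Adm th e τ) : ∃ C : ℝ, 0 < C ∧ ∃ X0 : ℕ, ∀ X : ℕ, X0 ≤ X →
    ∀ (G : ℕ) [NeZero G], 3 * X ≤ G → ∀ V : ZMod G → ℂ, VB G X V → ∀ (a b : ℕ) (ω : ZMod G → ℂ),
    Wt G X a b ω → (2 : ℝ) ^ b ≤ (X : ℝ) ^ (τ / 8) → ∀ E : Finset ℕ, E ⊆ Icc 1 X →
    ∀ ph : ℕ → ℂ, (∀ n, ‖ph n‖ ≤ 1) → ∀ ρ δ : ℝ, 0 ≤ ρ → 0 ≤ δ → NoAP G X b ω E ρ δ →
    TIJ1 th e X (FF G (xx G V ω E ph)) (C * (Real.log X) ^ 2 *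
      (Real.sqrt δ + (X : ℝ) ^ (-(1 / 8 : ℝ))) * X * E.card) := by
  obtain ⟨ht1, ht2, he0, hτ1, hτ2⟩ := id hA
  obtain ⟨C1, hC1, X1, hker⟩ := typeI_ker
  obtain ⟨X2, hnm⟩ := nm1_triv
  obtain ⟨X3, hnm'⟩ := nm1_blk
  refine ⟨144 * C1, by positivity, max X1 (max X2 (max X3 256)), ?_⟩
  intro X hX G _ hG V hVB a b ω hω hb E hE ph hph ρ δ hρ hδ hno R c y hR hc hy
  simp only [max_le_iff] at hX
  obtain ⟨hX1, hX2, hX3, hX4⟩ := hX
  have hXr : (256 : ℝ) ≤ X := by exact_mod_cast hX4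
  have hX0 : (0 : ℝ) < X := by linarith
  have hX1r : (1 : ℝ) ≤ X := by linarith
  have hL : 1 ≤ Real.log X := log_ge (by omega)
  have hn := hnm X hX2 G hG V hVB a b ω hω E hE ph hph
  have hn' := hnm' X hX3 G hG V hVB a b ω hω E hE ph hph ρ δ hρ hδ hno
  set x := xx G V ω E ph with hxdef
  have hx : ∀ j, x j ≠ 0 → inBlk X a b (al G j) := xx_supp hω
  set L := Real.log X with hLdef
  have hZ : ZJ th e X ≤ 2 * (X : ℝ) ^ (3 / 4 : ℝ) := by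
    unfold ZJ
    refine mul_le_mul_of_nonneg_left ?_ (by norm_num)
    refine Real.rpow_le_rpow_of_exponent_le hX1r ?_
    unfold JX.lv
    refine (min_le_right _ _).trans ?_
    linarith
  have hR2 : (R : ℝ) ≤ 2 * (X : ℝ) ^ (3 / 4 : ℝ) := hR.trans hZ
  have hRX : R ≤ X := by
    have h1 : (R : ℝ) ≤ X := by
      refine hR2.trans ?_
      have h2 : (2 : ℝ) ≤ (X : ℝ) ^ (1 / 4 : ℝ) := by
        have h3 : ((256 : ℝ)) ^ (1 / 4 : ℝ) ≤ (X : ℝ) ^ (1 / 4 : ℝ) :=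
          Real.rpow_le_rpow (by norm_num) hXr (by norm_num)
        have h4 : ((256 : ℝ)) ^ (1 / 4 : ℝ) = 4 := by
          rw [show (256 : ℝ) = 4 ^ (4 : ℝ) by norm_num, ← Real.rpow_mul (by norm_num)]
          norm_num
        rw [h4] at h3
        linarith
      calc 2 * (X : ℝ) ^ (3 / 4 : ℝ) ≤ (X : ℝ) ^ (1 / 4 : ℝ) * (X : ℝ) ^ (3 / 4 : ℝ) :=
            mul_le_mul_of_nonneg_right h2 (by positivity)
        _ = (X : ℝ) := by
            rw [← Real.rpow_add hX0]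
            norm_num
    exact_mod_cast h1
  have hnm0 : 0 ≤ nm1 G x := by
    unfold nm1
    positivity
  have hb0 : (0 : ℝ) < 2 ^ b := by positivity
  have hS : (1 / (G : ℝ)) * ∑ j : ZMod G, ‖x j‖ *
        ∑ r ∈ Icc 1 R, L2G.mn ((X : ℝ) / r) ((r : ℝ) * al G j) ≤
      nm1 G x * (C1 * ((X : ℝ) / 2 ^ b + R) * L) := by
    unfold nm1
    rw [mul_assoc, sum_mul]
    apply mul_le_mul_of_nonneg_left _ (by positivity)
    apply sum_le_sum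
    intro j _
    by_cases hj : x j = 0
    · rw [hj, norm_zero, zero_mul, zero_mul]
    · apply mul_le_mul_of_nonneg_left _ (norm_nonneg _)
      refine (hker X hX1 (al G j) R hRX).trans ?_
      apply mul_le_mul_of_nonneg_right _ (by linarith)
      apply mul_le_mul_of_nonneg_left _ hC1.le
      apply add_le_add _ le_rfl
      exact div_le_div_of_nonneg_left (by positivity) hb0 (hx j hj).2.2.1
  refine (typeI_exp X G (by omega) x R c hc y hy).trans (hS.trans ?_)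
  have e1 : (X : ℝ) / 2 ^ b * nm1 G x ≤ 48 * L * (X * Real.sqrt δ * E.card) := by
    calc (X : ℝ) / 2 ^ b * nm1 G x ≤ (X : ℝ) / 2 ^ b * (48 * 2 ^ b * L * Real.sqrt δ * E.card) :=
          mul_le_mul_of_nonneg_left hn' (by positivity)
      _ = 48 * L * (X * Real.sqrt δ * E.card) := by
          field_simp
  have e2 : (R : ℝ) * nm1 G x ≤ 144 * L * (X ^ (-(1 / 8 : ℝ)) * X * E.card) := by
    have f1 : Real.sqrt ((2 : ℝ) ^ (b + 1)) ≤ 3 / 2 * (X : ℝ) ^ (τ / 16) := by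
      refine Real.sqrt_le_iff.2 ⟨by positivity, ?_⟩
      rw [mul_pow, ← Real.rpow_natCast ((X : ℝ) ^ (τ / 16)) 2, ← Real.rpow_mul hX0.le]
      have f2 : τ / 16 * ((2 : ℕ) : ℝ) = τ / 8 := by push_cast; ring
      rw [f2, pow_succ]
      have f3 : 0 < (X : ℝ) ^ (τ / 8) := Real.rpow_pos_of_pos hX0 _
      nlinarith
    have f2 : nm1 G x ≤ 72 * L * (X : ℝ) ^ (1 / 50 : ℝ) * E.card := by
      refine hn.trans ?_
      have f3 : (2 : ℝ) ^ b * Real.sqrt ((2 : ℝ) ^ (b + 1)) ≤ 3 / 2 * (X : ℝ) ^ (1 / 50 : ℝ) := by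
        calc (2 : ℝ) ^ b * Real.sqrt ((2 : ℝ) ^ (b + 1)) ≤
            (X : ℝ) ^ (τ / 8) * (3 / 2 * (X : ℝ) ^ (τ / 16)) :=
              mul_le_mul hb f1 (Real.sqrt_nonneg _) (by positivity)
          _ = 3 / 2 * (X : ℝ) ^ (τ / 8 + τ / 16) := by rw [Real.rpow_add hX0]; ring
          _ ≤ 3 / 2 * (X : ℝ) ^ (1 / 50 : ℝ) := by
              refine mul_le_mul_of_nonneg_left ?_ (by norm_num)
              exact Real.rpow_le_rpow_of_exponent_le hX1r (by linarith)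
      calc 48 * 2 ^ b * L * Real.sqrt (2 ^ (b + 1)) * E.card =
          48 * L * ((2 : ℝ) ^ b * Real.sqrt ((2 : ℝ) ^ (b + 1))) * E.card := by ring
        _ ≤ 48 * L * (3 / 2 * (X : ℝ) ^ (1 / 50 : ℝ)) * E.card := by gcongr
        _ = _ := by ring
    have f4 : (X : ℝ) ^ (3 / 4 : ℝ) * (X : ℝ) ^ (1 / 50 : ℝ) ≤ X ^ (-(1 / 8 : ℝ)) * X := by
      have f5 : (X : ℝ) ^ (-(1 / 8 : ℝ)) * X = (X : ℝ) ^ (7 / 8 : ℝ) := by
        nth_rewrite 2 [← Real.rpow_one (X : ℝ)]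
        rw [← Real.rpow_add hX0]
        norm_num
      rw [f5, ← Real.rpow_add hX0]
      exact Real.rpow_le_rpow_of_exponent_le hX1r (by norm_num)
    calc (R : ℝ) * nm1 G x ≤ (2 * (X : ℝ) ^ (3 / 4 : ℝ)) *
        (72 * L * (X : ℝ) ^ (1 / 50 : ℝ) * E.card) :=
          mul_le_mul hR2 f2 hnm0 (by positivity)
      _ = 144 * L * (((X : ℝ) ^ (3 / 4 : ℝ) * (X : ℝ) ^ (1 / 50 : ℝ)) * E.card) := by ring
      _ ≤ 144 * L * ((X ^ (-(1 / 8 : ℝ)) * X) * E.card) := by gcongr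
      _ = _ := by ring
  have e3 : 48 * L * (X * Real.sqrt δ * E.card) ≤ 144 * L * (X * Real.sqrt δ * E.card) := by
    have : 0 ≤ L * (X * Real.sqrt δ * E.card) := by positivity
    nlinarith
  calc nm1 G x * (C1 * ((X : ℝ) / 2 ^ b + R) * L)
      = C1 * L * ((X : ℝ) / 2 ^ b * nm1 G x + R * nm1 G x) := by ring
    _ ≤ C1 * L * (144 * L * (X * Real.sqrt δ * E.card) +
          144 * L * (X ^ (-(1 / 8 : ℝ)) * X * E.card)) := by
          apply mul_le_mul_of_nonneg_left (add_le_add (e1.trans e3) e2) (by positivity)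
    _ = 144 * C1 * L ^ 2 * (Real.sqrt δ + X ^ (-(1 / 8 : ℝ))) * X * E.card := by ring

private theorem low_fin {I Q L C1 C2 Y : ℝ} (hI0 : 0 ≤ I) (hI : I ≤ Q) (hL : 1 ≤ L)
    (hC1 : 0 < C1) (hC2 : 0 < C2) (hY : 0 ≤ Y) :
    I * (2 * Q ^ 2 * (C1 * L ^ 2 * Y)) + I * (Q ^ 2 * (2 * L + 2) * (C2 * L ^ 2 * Y + 72 * L * Y)) ≤
      (2 * C1 + 4 * C2 + 288) * (Q * (Q * Q) * L ^ 3) * Y := by
  have hQ0 : 0 ≤ Q := hI0.trans hI
  have hL0 : 0 < L := by linarith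
  have k1 : L ^ 2 ≤ L ^ 3 := pow_le_pow_right₀ hL (by norm_num)
  have k2 : L ≤ L ^ 2 := by nlinarith
  have k3 : 2 * Q ^ 2 * (C1 * L ^ 2 * Y) ≤ 2 * C1 * (Q ^ 2 * L ^ 3) * Y := by
    calc 2 * Q ^ 2 * (C1 * L ^ 2 * Y) = 2 * C1 * (Q ^ 2 * L ^ 2) * Y := by ring
      _ ≤ _ := by gcongr
  have k4 : Q ^ 2 * (2 * L + 2) * (C2 * L ^ 2 * Y + 72 * L * Y) ≤
      (4 * C2 + 288) * (Q ^ 2 * L ^ 3) * Y := by
    have k5 : 2 * L + 2 ≤ 4 * L := by linarith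
    calc Q ^ 2 * (2 * L + 2) * (C2 * L ^ 2 * Y + 72 * L * Y) ≤
        Q ^ 2 * (4 * L) * (C2 * L ^ 2 * Y + 72 * L ^ 2 * Y) := by gcongr
      _ = _ := by ring
  have h7 : 2 * Q ^ 2 * (C1 * L ^ 2 * Y) + Q ^ 2 * (2 * L + 2) * (C2 * L ^ 2 * Y + 72 * L * Y) ≤
      (2 * C1 + 4 * C2 + 288) * (Q ^ 2 * L ^ 3) * Y := by
    calc _ ≤ 2 * C1 * (Q ^ 2 * L ^ 3) * Y + (4 * C2 + 288) * (Q ^ 2 * L ^ 3) * Y :=
          add_le_add k3 k4
      _ = _ := by ring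
  calc I * (2 * Q ^ 2 * (C1 * L ^ 2 * Y)) +
      I * (Q ^ 2 * (2 * L + 2) * (C2 * L ^ 2 * Y + 72 * L * Y))
      = I * (2 * Q ^ 2 * (C1 * L ^ 2 * Y) +
        Q ^ 2 * (2 * L + 2) * (C2 * L ^ 2 * Y + 72 * L * Y)) := by ring
    _ ≤ Q * ((2 * C1 + 4 * C2 + 288) * (Q ^ 2 * L ^ 3) * Y) := mul_le_mul hI h7 (by positivity) hQ0
    _ = _ := by ring

/-- the structure theorem at small heights -/
theorem st_low (A C : ℕ) : ∃ C' : ℕ, ∀ th e τ : ℝ, Adm th e τ → ∃ X0 : ℕ, ∀ X : ℕ, X0 ≤ X →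
    ∀ (G : ℕ) [NeZero G], 3 * X ≤ G → ∀ U : ZMod G → ℂ, VB G X U → ∀ u : ℕ → ℝ,
    Str C th e τ X u → ∀ (a b : ℕ) (ω : ZMod G → ℂ), Wt G X a b ω →
    (2 : ℝ) ^ b ≤ (X : ℝ) ^ (τ / 8) → ∀ E : Finset ℕ, E ⊆ Icc 1 X →
    ∀ ph : ℕ → ℂ, (∀ n, ‖ph n‖ ≤ 1) → ∀ ρ : ℝ, 0 ≤ ρ →
    NoAP G X b ω E ρ (1 / (Real.log X) ^ C') →
    ‖∑ n ∈ E, ph n * PhU G X U u ω n‖ ≤ X * E.card / (Real.log X) ^ A := by
  refine ⟨2 * (A + 3 * C + 5), fun th e τ hA => ?_⟩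
  obtain ⟨ht1, ht2, he0, hτ1, hτ2⟩ := id hA
  have hτ0 : 0 < τ := by linarith
  obtain ⟨C1, hC1, X1, hT1⟩ := ti_low th e τ hA
  obtain ⟨C2, hC2, X2, hT2⟩ := tii_low τ hτ0
  obtain ⟨X3, hnm⟩ := nm1_triv
  set Kc : ℝ := 2 * C1 + 4 * C2 + 288 with hKc
  obtain ⟨X4, hX4⟩ := MP_log_pow (4 * Kc) (3 * C + 3 + A) (ε := τ / 4) (by linarith)
  have hlog : ∃ X5 : ℕ, ∀ X : ℕ, X5 ≤ X → 4 * Kc ≤ Real.log X := by
    have := (Real.tendsto_log_atTop.comp tendsto_natCast_atTop_atTop).eventually_ge_atTop (4 * Kc)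
    exact Filter.eventually_atTop.mp this
  obtain ⟨X5, hX5⟩ := hlog
  refine ⟨max X1 (max X2 (max X3 (max X4 (max X5 256)))), ?_⟩
  intro X hX G _ hG U hU u hu a b ω hω hb E hE ph hph ρ hρ hno
  simp only [max_le_iff] at hX
  obtain ⟨g1, g2, g3, g4, g5, g6⟩ := hX
  have hXr : (256 : ℝ) ≤ X := by exact_mod_cast g6
  have hX0 : (0 : ℝ) < X := by linarith
  have hX1r : (1 : ℝ) ≤ X := by linarith
  have hL : 1 ≤ Real.log X := log_ge (by omega)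
  have h4 := hX4 X g4
  have h5 := hX5 X g5
  set L : ℝ := Real.log X with hLdef
  have hL0 : 0 < L := by linarith
  have hE0 : (0 : ℝ) ≤ E.card := Nat.cast_nonneg _
  obtain ⟨I, γ, α, M, K, aa, cc, hI, hk1, hk2, hu'⟩ := str_ok C th e τ X u hu
  set Q : ℝ := L ^ C with hQdef
  have hQ1 : 1 ≤ Q := one_le_pow₀ hL
  have hQ0 : 0 ≤ Q := by linarith
  set δ : ℝ := 1 / L ^ (2 * (A + 3 * C + 5)) with hδ
  have hδ0 : 0 ≤ δ := by positivity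
  set s : ℝ := Real.sqrt δ + (X : ℝ) ^ (-(τ / 4)) with hs
  have hp : 0 < (X : ℝ) ^ (-(τ / 4)) := Real.rpow_pos_of_pos hX0 _
  have hs0 : 0 ≤ s := by positivity
  have hp8 : (X : ℝ) ^ (-(1 / 8 : ℝ)) ≤ (X : ℝ) ^ (-(τ / 4)) :=
    Real.rpow_le_rpow_of_exponent_le hX1r (by linarith)
  set Y : ℝ := s * X * E.card with hY
  have hY0 : 0 ≤ Y := by positivity
  set F := FF G (xx G U ω E ph) with hF
  -- type I
  have hone : ∀ i, ‖∑ n ∈ Icc 1 X, ((ty1 (γ i) (α i) n : ℝ) : ℂ) * F n‖ ≤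
      2 * Q ^ 2 * (C1 * L ^ 2 * Y) := by
    intro i
    refine (ty1_sum th e X (by omega) _ _ (hT1 X g1 G hG U hU a b ω hω hb E hE ph hph ρ δ hρ
      hδ0 hno) (γ i) (α i) Q (hk1 i)).trans ?_
    refine mul_le_mul_of_nonneg_left ?_ (by positivity)
    calc C1 * L ^ 2 * (Real.sqrt δ + (X : ℝ) ^ (-(1 / 8 : ℝ))) * X * E.card
        ≤ C1 * L ^ 2 * s * X * E.card := by
          rw [hs]
          gcongr
      _ = C1 * L ^ 2 * Y := by rw [hY]; ring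
  -- the bound for `F`
  have hB4 : ∀ n, ‖F n‖ ≤ 72 * L * (X : ℝ) ^ (1 / 50 : ℝ) * E.card := by
    intro n
    refine (ff_sup G _ n).trans ((hnm X g3 G hG U hU a b ω hω E hE ph hph).trans ?_)
    have f1 : Real.sqrt ((2 : ℝ) ^ (b + 1)) ≤ 3 / 2 * (X : ℝ) ^ (τ / 16) := by
      refine Real.sqrt_le_iff.2 ⟨by positivity, ?_⟩
      rw [mul_pow, ← Real.rpow_natCast ((X : ℝ) ^ (τ / 16)) 2, ← Real.rpow_mul hX0.le]
      have f2 : τ / 16 * ((2 : ℕ) : ℝ) = τ / 8 := by push_cast; ring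
      rw [f2, pow_succ]
      have f3 : 0 < (X : ℝ) ^ (τ / 8) := Real.rpow_pos_of_pos hX0 _
      nlinarith
    have f3 : (2 : ℝ) ^ b * Real.sqrt ((2 : ℝ) ^ (b + 1)) ≤ 3 / 2 * (X : ℝ) ^ (1 / 50 : ℝ) := by
      calc (2 : ℝ) ^ b * Real.sqrt ((2 : ℝ) ^ (b + 1)) ≤
          (X : ℝ) ^ (τ / 8) * (3 / 2 * (X : ℝ) ^ (τ / 16)) :=
            mul_le_mul hb f1 (Real.sqrt_nonneg _) (by positivity)
        _ = 3 / 2 * (X : ℝ) ^ (τ / 8 + τ / 16) := by rw [Real.rpow_add hX0]; ring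
        _ ≤ 3 / 2 * (X : ℝ) ^ (1 / 50 : ℝ) := by
            refine mul_le_mul_of_nonneg_left ?_ (by norm_num)
            exact Real.rpow_le_rpow_of_exponent_le hX1r (by linarith)
    calc 48 * 2 ^ b * L * Real.sqrt (2 ^ (b + 1)) * E.card =
        48 * L * ((2 : ℝ) ^ b * Real.sqrt ((2 : ℝ) ^ (b + 1))) * E.card := by ring
      _ ≤ 48 * L * (3 / 2 * (X : ℝ) ^ (1 / 50 : ℝ)) * E.card := by gcongr
      _ = _ := by ring
  have hB4' : Real.sqrt X * (72 * L * (X : ℝ) ^ (1 / 50 : ℝ) * E.card) ≤ 72 * L * Y := by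
    have f1 : Real.sqrt X * (X : ℝ) ^ (1 / 50 : ℝ) ≤ (X : ℝ) ^ (-(τ / 4)) * X := by
      have f5 : (X : ℝ) ^ (-(τ / 4)) * X = (X : ℝ) ^ (-(τ / 4) + 1) := by
        rw [Real.rpow_add hX0, Real.rpow_one]
      rw [f5, Real.sqrt_eq_rpow, ← Real.rpow_add hX0]
      exact Real.rpow_le_rpow_of_exponent_le hX1r (by linarith)
    calc Real.sqrt X * (72 * L * (X : ℝ) ^ (1 / 50 : ℝ) * E.card)
        = 72 * L * ((Real.sqrt X * (X : ℝ) ^ (1 / 50 : ℝ)) * E.card) := by ring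
      _ ≤ 72 * L * (((X : ℝ) ^ (-(τ / 4)) * X) * E.card) := by gcongr
      _ ≤ 72 * L * ((s * X) * E.card) := by
          have : (X : ℝ) ^ (-(τ / 4)) ≤ s := by
            rw [hs]
            linarith [Real.sqrt_nonneg δ]
          gcongr
      _ = _ := by rw [hY]
  have htwo : ∀ i, ‖∑ n ∈ Icc 1 X, ((ty2 (K i) (aa i) (cc i) n : ℝ) : ℂ) * F n‖ ≤
      Q ^ 2 * (2 * L + 2) * (C2 * L ^ 2 * Y + 72 * L * Y) := by
    intro i
    obtain ⟨-, ⟨m1, m2, -⟩, -⟩ := hk2 i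
    have hM1 : 1 ≤ M i := by
      have h1 : (0 : ℝ) < (X : ℝ) ^ τ / 2 := by positivity
      have h2 : (0 : ℝ) < M i := lt_of_lt_of_le h1 m1
      have h3 : 0 < M i := by exact_mod_cast h2
      exact h3
    have hMs : (M i : ℝ) ≤ Real.sqrt X := by
      refine m2.trans ?_
      unfold IX.yB
      rw [Real.sqrt_eq_rpow]
      exact Real.rpow_le_rpow_of_exponent_le hX1r (by linarith)
    have h1 := ty2_sum th e τ hA X (by omega) F _ _ hB4 (M i) (K i) hM1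
      (hT2 X g2 G hG U hU a b ω hω hb E hE ph hph ρ δ hρ hδ0 hno (M i) m1 hMs)
      (aa i) (cc i) Q (hk2 i)
    refine h1.trans ?_
    refine mul_le_mul_of_nonneg_left ?_ (by positivity)
    refine add_le_add (le_of_eq ?_) hB4'
    rw [hY, hs]
    ring
  have hsum : ‖∑ n ∈ E, ph n * PhU G X U u ω n‖ ≤ I * (2 * Q ^ 2 * (C1 * L ^ 2 * Y)) +
      I * (Q ^ 2 * (2 * L + 2) * (C2 * L ^ 2 * Y + 72 * L * Y)) := by
    rw [pair_u]
    have h1 : ∑ n ∈ Icc 1 X, ((u n : ℝ) : ℂ) * FF G (xx G U ω E ph) n =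
        ∑ i ∈ range I, ∑ n ∈ Icc 1 X, ((ty1 (γ i) (α i) n : ℝ) : ℂ) * FF G (xx G U ω E ph) n +
        ∑ i ∈ range I, ∑ n ∈ Icc 1 X, ((ty2 (K i) (aa i) (cc i) n : ℝ) : ℂ) *
          FF G (xx G U ω E ph) n := by
      rw [Finset.sum_comm, Finset.sum_comm (s := range I) (t := Icc 1 X)
        (f := fun i n => ((ty2 (K i) (aa i) (cc i) n : ℝ) : ℂ) * FF G (xx G U ω E ph) n),
        ← Finset.sum_add_distrib]
      refine Finset.sum_congr rfl fun n hn => ?_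
      rw [hu' n hn, ← Finset.sum_mul, ← Finset.sum_mul]
      push_cast
      ring
    rw [h1]
    refine (norm_add_le _ _).trans (add_le_add ?_ ?_)
    · refine (norm_sum_le _ _).trans ((Finset.sum_le_sum fun i _ => hone i).trans (le_of_eq ?_))
      rw [Finset.sum_const, Finset.card_range, nsmul_eq_mul]
    · refine (norm_sum_le _ _).trans ((Finset.sum_le_sum fun i _ => htwo i).trans (le_of_eq ?_))
      rw [Finset.sum_const, Finset.card_range, nsmul_eq_mul]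
  refine hsum.trans ?_
  -- total `≤ Kc L^(3C+3) Y`
  have h6 : I * (2 * Q ^ 2 * (C1 * L ^ 2 * Y)) +
      I * (Q ^ 2 * (2 * L + 2) * (C2 * L ^ 2 * Y + 72 * L * Y)) ≤ Kc * L ^ (3 * C + 3) * Y := by
    refine (low_fin (Nat.cast_nonneg _) hI hL hC1 hC2 hY0).trans (le_of_eq ?_)
    rw [hKc, hQdef, show 3 * C + 3 = C + (C + C) + 3 by ring, pow_add, pow_add, pow_add]
  refine h6.trans ?_
  have hsq : Real.sqrt δ = 1 / L ^ (A + 3 * C + 5) := by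
    have h1 : δ = (1 / L ^ (A + 3 * C + 5)) ^ 2 := by
      rw [hδ, _root_.div_pow, one_pow, ← pow_mul, mul_comm 2]
    rw [h1, Real.sqrt_sq (by positivity)]
  have hKc0 : 0 < Kc := by positivity
  have h8 : Kc * L ^ (3 * C + 3) * s ≤ 1 / L ^ A := by
    have k1 : Kc * L ^ (3 * C + 3) * Real.sqrt δ ≤ 1 / 4 * (1 / L ^ A) := by
      rw [hsq]
      have : L ^ (A + 3 * C + 5) = L ^ A * L ^ (3 * C + 3) * L ^ 2 := by ring
      rw [this]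
      have k2 : Kc * L ^ (3 * C + 3) * (1 / (L ^ A * L ^ (3 * C + 3) * L ^ 2)) =
          Kc / L ^ 2 * (1 / L ^ A) := by
        field_simp
      rw [k2]
      refine mul_le_mul_of_nonneg_right ?_ (by positivity)
      rw [div_le_iff₀ (by positivity)]
      nlinarith
    have k3 : Kc * L ^ (3 * C + 3) * (X : ℝ) ^ (-(τ / 4)) ≤ 1 / 4 * (1 / L ^ A) := by
      rw [Real.rpow_neg hX0.le, ← div_eq_mul_inv, div_le_iff₀ (Real.rpow_pos_of_pos hX0 _)]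
      have k4 : 4 * Kc * L ^ (3 * C + 3) * L ^ A ≤ (X : ℝ) ^ (τ / 4) := by
        rw [mul_assoc, ← pow_add]
        exact h4
      have hLA : 0 < L ^ A := by positivity
      calc Kc * L ^ (3 * C + 3) = 1 / 4 * (1 / L ^ A) * (4 * Kc * L ^ (3 * C + 3) * L ^ A) := by
            field_simp
        _ ≤ _ := mul_le_mul_of_nonneg_left k4 (by positivity)
    have hLA : 0 < 1 / L ^ A := by positivity
    calc Kc * L ^ (3 * C + 3) * s = Kc * L ^ (3 * C + 3) * Real.sqrt δ +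
          Kc * L ^ (3 * C + 3) * (X : ℝ) ^ (-(τ / 4)) := by rw [hs]; ring
      _ ≤ _ := by linarith
  calc Kc * L ^ (3 * C + 3) * Y = (Kc * L ^ (3 * C + 3) * s) * (X * E.card) := by rw [hY]; ring
    _ ≤ 1 / L ^ A * (X * E.card) := mul_le_mul_of_nonneg_right h8 (by positivity)
    _ = _ := by ring

end Pool.MP_dd84fd_nt.TX
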