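import Pool.Agent.Lib.MP_dd84fd_nt.TX.Low
import Pool.Agent.Lib.MP_dd84fd_nt.LX.FaFacts
import Pool.Agent.Lib.MP_dd84fd_nt.GX.DivPow
import Pool.Agent.Lib.MP_dd84fd_nt.GX.Den
import Pool.Agent.Lib.MP_dd84fd_nt.JX.GStrW

/-!
# TX-Mt: the main theorem for an arbitrary function `U` and a narrow family

Frequencies of height `≤ L^K1`: `MajI`; blocks of height `≤ X^(τ/8)`: `st_low`; the others: `LX.st_l`.
-/

set_option autoImplicit false

namespace Pool.MP_dd84fd_nt.TX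

open Finset Pool.MP_67663b_nt.Odd Pool.MP_dd84fd_nt.En Pool.MP_dd84fd_nt.E2 Pool.MP_dd84fd_nt.LS
open Pool.MP_dd84fd_nt.L2G (nrm)
open Pool.MP_dd84fd_nt.GX Pool.MP_dd84fd_nt.HX
open Pool.MP_dd84fd_nt.IX (dl yB fI WI W1 MajI cfI y3_dl)
open Pool.MP_dd84fd_nt.JX (Adm ZJ DecJ Str StrWJ)
open Pool.MP_dd84fd_nt.LX (PhU pair_u phU_cauchy phU_add phU_co tr_cfI StL st_l)

/-! ### Central arcs -/

private theorem maj_int (c R : ℝ) (hR : 0 ≤ R) :
    ((Finset.Icc ⌈c - R⌉ ⌊c + R⌋).card : ℝ) ≤ 2 * R + 1 := by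
  rw [Int.card_Icc]
  have h1 : (⌊c + R⌋ : ℝ) ≤ c + R := Int.floor_le _
  have h2 : c - R ≤ (⌈c - R⌉ : ℝ) := Int.le_ceil _
  rcases le_total 0 (⌊c + R⌋ + 1 - ⌈c - R⌉) with h | h
  · have h3 : (((⌊c + R⌋ + 1 - ⌈c - R⌉).toNat : ℤ) : ℝ) = ((⌊c + R⌋ + 1 - ⌈c - R⌉ : ℤ) : ℝ) := by
      rw [Int.toNat_of_nonneg h]
    have h4 : (((⌊c + R⌋ + 1 - ⌈c - R⌉).toNat : ℕ) : ℝ) =
        (((⌊c + R⌋ + 1 - ⌈c - R⌉).toNat : ℤ) : ℝ) := (Int.cast_natCast _).symm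
    rw [h4, h3]
    push_cast
    linarith
  · rw [Int.toNat_of_nonpos h]
    push_cast
    linarith

theorem maj_count (X G : ℕ) [NeZero G] (hX : 1 ≤ X) (hG : 3 * X ≤ G) (H : ℝ)
    (hH1 : 1 ≤ H) (hHX : H < X) (J : Finset (ZMod G)) (hJ : ∀ j ∈ J, Ht H X (al G j)) :
    (J.card : ℝ) ≤ 6 * H ^ 3 * (G / X) := by
  classical
  have X0 : (0 : ℝ) < X := by exact_mod_cast hX
  have G0 : (0 : ℝ) < G := by
    have : 0 < G := by omega
    exact_mod_cast this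
  have hGX : (3 : ℝ) ≤ G / X := by
    rw [le_div_iff₀ X0]
    exact_mod_cast hG
  obtain ⟨R, hR⟩ : ∃ R : ℝ, R = H * G / X := ⟨_, rfl⟩
  have hR3 : 3 ≤ R := by
    have h1 : H * G / X = H * (G / X) := by ring
    rw [hR, h1]
    have h2 : 1 * (3 : ℝ) ≤ H * (G / X) := mul_le_mul hH1 hGX (by norm_num) (by linarith)
    linarith
  obtain ⟨h, hh⟩ : ∃ h : ℕ, h = ⌊H⌋₊ := ⟨_, rfl⟩
  have hhH : (h : ℝ) ≤ H := by
    rw [hh]
    exact Nat.floor_le (by linarith)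
  obtain ⟨P, hP⟩ : ∃ P : Finset (ℕ × ℕ), P = Finset.Icc 1 h ×ˢ Finset.range (h + 1) := ⟨_, rfl⟩
  have hcov : J ⊆ P.biUnion fun p =>
      J.filter fun j => |(j.val : ℝ) - (p.2 : ℝ) * G / p.1| ≤ R := by
    intro j hj
    obtain ⟨q, a, hq, _, hle⟩ := hJ j hj
    obtain ⟨θ, hθ⟩ : ∃ θ, θ = al G j := ⟨_, rfl⟩
    rw [← hθ] at hle
    have q0 : (0 : ℝ) < q := by exact_mod_cast hq
    have habs : 0 ≤ |θ - (a : ℝ) / q| := abs_nonneg _
    have hqH : (q : ℝ) ≤ H := by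
      have h1 : 0 ≤ (q : ℝ) * (X * |θ - (a : ℝ) / q|) := by positivity
      linarith
    have hqX : (q : ℝ) * (X * |θ - (a : ℝ) / q|) ≤ H := by linarith
    have hθ0 : 0 ≤ θ := by
      rw [hθ]
      unfold al
      positivity
    have hθ1 : θ < 1 := by
      rw [hθ]
      unfold al
      rw [div_lt_one G0]
      exact_mod_cast ZMod.val_lt j
    have hqa : |q * θ - a| * X ≤ H := by
      have h1 : |q * θ - a| = q * |θ - (a : ℝ) / q| := by
        rw [← abs_of_pos q0, ← abs_mul, abs_of_pos q0]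
        congr 1
        field_simp
      rw [h1]
      linarith
    have hqa1 : |q * θ - a| < 1 := by
      by_contra hcon
      push Not at hcon
      have h1 : 1 * (X : ℝ) ≤ |q * θ - a| * X := mul_le_mul_of_nonneg_right hcon X0.le
      linarith
    rw [abs_lt] at hqa1
    have hqθ0 : 0 ≤ (q : ℝ) * θ := by positivity
    have hqθ1 : (q : ℝ) * θ < q := by
      have := mul_lt_mul_of_pos_left hθ1 q0
      linarith
    have ha0 : 0 ≤ a := by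
      have h1 : (-1 : ℝ) < a := by linarith [hqa1.2]
      have h2 : (-1 : ℤ) < a := by exact_mod_cast h1
      omega
    have haq : a ≤ q := by
      have h1 : (a : ℝ) < q + 1 := by linarith [hqa1.1]
      have h2 : a < (q : ℤ) + 1 := by exact_mod_cast h1
      omega
    obtain ⟨b, rfl⟩ := Int.eq_ofNat_of_zero_le ha0
    have hbq : b ≤ q := by exact_mod_cast haq
    have hqh : q ≤ h := by
      rw [hh]
      exact Nat.le_floor hqH
    rw [mem_biUnion]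
    refine ⟨(q, b), ?_, ?_⟩
    · rw [hP, mem_product, mem_Icc, mem_range]
      exact ⟨⟨hq, hqh⟩, by
        show b < h + 1
        omega⟩
    · rw [mem_filter]
      refine ⟨hj, ?_⟩
      show |(j.val : ℝ) - (b : ℝ) * G / q| ≤ R
      have h1 : (j.val : ℝ) - (b : ℝ) * G / q = G * (θ - ((b : ℤ) : ℝ) / q) := by
        rw [hθ]
        unfold al
        push_cast
        field_simp
      rw [h1, abs_mul, abs_of_pos G0, hR, le_div_iff₀ X0]
      have q1 : (1 : ℝ) ≤ q := by exact_mod_cast hq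
      have h2 : 1 * (X * |θ - ((b : ℤ) : ℝ) / q|) ≤ (q : ℝ) * (X * |θ - ((b : ℤ) : ℝ) / q|) :=
        mul_le_mul_of_nonneg_right q1 (by positivity)
      have h3 : X * |θ - ((b : ℤ) : ℝ) / q| * G ≤ H * G :=
        mul_le_mul_of_nonneg_right (by linarith) G0.le
      linarith
  have hone : ∀ p ∈ P, ((J.filter fun j => |(j.val : ℝ) - (p.2 : ℝ) * G / p.1| ≤ R).card : ℝ) ≤
      3 * R := by
    intro p _
    obtain ⟨c, hc⟩ : ∃ c : ℝ, c = (p.2 : ℝ) * G / p.1 := ⟨_, rfl⟩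
    rw [← hc]
    have h1 : (J.filter fun j => |(j.val : ℝ) - c| ≤ R).card ≤
        (Finset.Icc ⌈c - R⌉ ⌊c + R⌋).card := by
      refine card_le_card_of_injOn (fun j => (j.val : ℤ)) ?_ ?_
      · intro j hj
        have h2 := (mem_filter.1 (mem_coe.1 hj)).2
        rw [abs_le] at h2
        rw [mem_coe, mem_Icc]
        refine ⟨Int.ceil_le.2 ?_, Int.le_floor.2 ?_⟩
        · push_cast
          linarith [h2.1]
        · push_cast
          linarith [h2.2]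
      · intro j _ j' _ hjj
        have h2 : (j.val : ℤ) = (j'.val : ℤ) := hjj
        exact ZMod.val_injective G (by exact_mod_cast h2)
    have h2 := maj_int c R (by linarith)
    have h3 : ((J.filter fun j => |(j.val : ℝ) - c| ≤ R).card : ℝ) ≤
        ((Finset.Icc ⌈c - R⌉ ⌊c + R⌋).card : ℝ) := by exact_mod_cast h1
    linarith
  have hPc : (P.card : ℝ) ≤ 2 * H ^ 2 := by
    rw [hP, card_product, Nat.card_Icc, card_range, Nat.add_sub_cancel]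
    push_cast
    have h1 : (h : ℝ) * (h + 1) ≤ H * (H + 1) :=
      mul_le_mul hhH (by linarith) (by positivity) (by linarith)
    have h2 : H * 1 ≤ H * H := mul_le_mul_of_nonneg_left hH1 (by linarith)
    have h3 : H ^ 2 = H * H := by ring
    rw [h3]
    linarith
  have h1 : (J.card : ℝ) ≤ ∑ p ∈ P,
      ((J.filter fun j => |(j.val : ℝ) - (p.2 : ℝ) * G / p.1| ≤ R).card : ℝ) := by
    have h2 := (card_le_card hcov).trans card_biUnion_le
    exact_mod_cast h2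
  have h2 := h1.trans (sum_le_sum hone)
  rw [sum_const, nsmul_eq_mul] at h2
  have h3 : (P.card : ℝ) * (3 * R) ≤ 2 * H ^ 2 * (3 * R) :=
    mul_le_mul_of_nonneg_right hPc (by linarith)
  have h4 : 2 * H ^ 2 * (3 * R) = 6 * H ^ 3 * (G / X) := by
    rw [hR]
    ring
  linarith

/-- `PhU` with a weight supported on a set on which the two transforms are small -/
theorem phU_supp (G : ℕ) [NeZero G] (X : ℕ) (U : ZMod G → ℂ) (v : ℕ → ℝ) (ω : ZMod G → ℂ)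
    (hω : ∀ j, ‖ω j‖ ≤ 1) (J : Finset (ZMod G)) (hJ : ∀ j, ω j ≠ 0 → j ∈ J) (B1 B2 : ℝ)
    (h0 : 0 ≤ B1) (h1 : ∀ j ∈ J, ‖U j‖ ≤ B1) (h2 : ∀ j ∈ J, ‖tr G X v j‖ ≤ B2) (n : ℕ) :
    ‖PhU G X U v ω n‖ ≤ (1 / (G : ℝ)) * (J.card * (B1 * B2)) := by
  classical
  unfold PhU
  rw [norm_mul]
  have e1 : ‖(1 / (G : ℂ))‖ = 1 / (G : ℝ) := by simp
  rw [e1]
  refine mul_le_mul_of_nonneg_left ?_ (by positivity)
  have h3 : ∑ j : ZMod G, ω j * U j * tr G X v j * ZMod.stdAddChar (-((n : ZMod G) * j)) =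
      ∑ j ∈ J, ω j * U j * tr G X v j * ZMod.stdAddChar (-((n : ZMod G) * j)) := by
    symm
    refine Finset.sum_subset (Finset.subset_univ _) fun j _ hj => ?_
    have : ω j = 0 := by
      by_contra h
      exact hj (hJ j h)
    rw [this]
    ring
  rw [h3]
  refine (norm_sum_le _ _).trans ((Finset.sum_le_card_nsmul _ _ (B1 * B2) fun j hj => ?_).trans
    (le_of_eq ?_))
  · rw [norm_mul, norm_mul, norm_mul, AddChar.norm_apply, mul_one]
    have k1 : ‖ω j‖ * ‖U j‖ ≤ 1 * B1 := mul_le_mul (hω j) (h1 j hj) (norm_nonneg _) zero_le_one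
    rw [one_mul] at k1
    exact mul_le_mul k1 (h2 j hj) (norm_nonneg _) h0
  · rw [nsmul_eq_mul]

theorem maj_t (K1 CV A : ℕ) (ww gg : ℕ → ℕ → ℝ) (hM : MajI ww gg) : ∃ D0 : ℕ, ∀ D' : ℕ,
    D0 ≤ D' → ∃ X0 : ℕ, ∀ X : ℕ, X0 ≤ X → ∀ (G : ℕ) [NeZero G], 3 * X ≤ G → ∀ U : ZMod G → ℂ,
    VBH G X CV U → ∀ ω : ZMod G → ℂ, (∀ j, ‖ω j‖ ≤ 1) →
    (∀ j, ω j ≠ 0 → Ht ((Real.log X) ^ K1) X (al G j)) → ∀ n : ℕ,
    ‖PhU G X U (cfI ww gg (-1) (wX D' X) X) ω n‖ ≤ X / (Real.log X) ^ A := by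
  classical
  obtain ⟨D0, hD0⟩ := hM (3 * K1 + CV + A + 1) K1
  refine ⟨D0, fun D' hD' => ?_⟩
  obtain ⟨X1, hX1⟩ := hD0 D' hD'
  have hlog : ∀ᶠ x : ℝ in Filter.atTop, ‖Real.log x ^ K1‖ ≤ (1 / 2) * ‖id x‖ :=
    (Real.isLittleO_pow_log_id_atTop (n := K1)).bound (by norm_num)
  obtain ⟨x0, hx0⟩ := Filter.eventually_atTop.1 hlog
  obtain ⟨X2, hX2⟩ := exists_nat_ge (max x0 (Real.exp 18))
  refine ⟨max X1 X2, fun X hX G hGz hG U hU ω hω hHt n => ?_⟩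
  have hXX1 : X1 ≤ X := (le_max_left _ _).trans hX
  have hXX2 : (X2 : ℝ) ≤ X := by exact_mod_cast (le_max_right _ _).trans hX
  have hXx : x0 ≤ X := ((le_max_left _ _).trans hX2).trans hXX2
  have hXe : Real.exp 18 ≤ X := ((le_max_right _ _).trans hX2).trans hXX2
  have X0 : (0 : ℝ) < X := lt_of_lt_of_le (Real.exp_pos _) hXe
  have hX1' : 1 ≤ X := by
    have : 0 < X := by exact_mod_cast X0
    exact this
  have G0 : (0 : ℝ) < G := by
    have : 0 < G := by omega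
    exact_mod_cast this
  have hclose := hX1 X hXX1
  obtain ⟨L, hL⟩ : ∃ L, L = Real.log (X : ℝ) := ⟨_, rfl⟩
  have L18 : 18 ≤ L := by
    rw [hL, Real.le_log_iff_exp_le X0]
    exact hXe
  have L0 : 0 < L := by linarith
  have hHX : L ^ K1 < X := by
    have h1 := hx0 X hXx
    rw [← hL, Real.norm_of_nonneg (by positivity)] at h1
    have h2 : ‖(id (X : ℝ))‖ = X := Real.norm_of_nonneg X0.le
    rw [h2] at h1
    linarith
  rw [← hL] at hclose hHt ⊢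
  have hH1 : 1 ≤ L ^ K1 := one_le_pow₀ (by linarith)
  obtain ⟨J, hJ⟩ : ∃ J : Finset (ZMod G), J = univ.filter fun j => ω j ≠ 0 := ⟨_, rfl⟩
  have hJH : ∀ j ∈ J, Ht (L ^ K1) X (al G j) := by
    intro j hj
    rw [hJ, mem_filter] at hj
    exact hHt j hj.2
  have hcard := maj_count X G hX1' hG (L ^ K1) hH1 hHX J hJH
  have h1 := phU_supp G X U (cfI ww gg (-1) (wX D' X) X) ω hω J (fun j hj => by
    rw [hJ, mem_filter]
    exact ⟨mem_univ _, hj⟩) (X * L ^ CV) (X / L ^ (3 * K1 + CV + A + 1)) (by positivity)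
    (fun j _ => by
      rw [hL]
      exact hU.2 j)
    (fun j hj => by
      rw [tr_cfI]
      exact hclose (al G j) (hJH j hj)) n
  refine h1.trans ?_
  have h2 : (1 / (G : ℝ)) * (J.card * (X * L ^ CV * (X / L ^ (3 * K1 + CV + A + 1)))) ≤
      (1 / (G : ℝ)) * (6 * (L ^ K1) ^ 3 * (G / X) * (X * L ^ CV * (X / L ^ (3 * K1 + CV + A + 1)))) :=
    mul_le_mul_of_nonneg_left (mul_le_mul_of_nonneg_right hcard (by positivity)) (by positivity)
  refine h2.trans ?_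
  have h3 : (1 / (G : ℝ)) * (6 * (L ^ K1) ^ 3 * (G / X) *
      (X * L ^ CV * (X / L ^ (3 * K1 + CV + A + 1)))) = X / L ^ A * (6 / L) := by
    have e1 : L ^ (3 * K1 + CV + A + 1) = (L ^ K1) ^ 3 * L ^ CV * L ^ A * L := by
      rw [← pow_mul, ← pow_add, ← pow_add, ← pow_succ]
      congr 1
      ring
    rw [e1]
    field_simp
  rw [h3]
  refine mul_le_of_le_one_right (by positivity) ?_
  rw [div_le_one L0]
  linarith

/-! ### Blocks (copied from `GX/MT.lean`) -/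

theorem mt_blk (X : ℕ) (hX : 1 ≤ X) (α : ℝ) :
    ∃ p ∈ (range (Nat.log 2 X + 1)) ×ˢ (range (Nat.log 2 X + 1)), inBlk X p.1 p.2 α ∧
      ∀ p' : ℕ × ℕ, inBlk X p'.1 p'.2 α → p' = p := by
  obtain ⟨q1, q2, -, -⟩ := qd_spec X hX α
  obtain ⟨h1, h2, -, -⟩ := ht_spec X hX α
  have hq0 : qd X α ≠ 0 := by omega
  have hf1 : 1 ≤ ⌊ht X α⌋₊ := Nat.le_floor (by exact_mod_cast h1)
  have hf0 : ⌊ht X α⌋₊ ≠ 0 := by omega
  have hsX : Nat.sqrt X ≤ X := Nat.sqrt_le_self X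
  have hfX : ⌊ht X α⌋₊ ≤ X := by
    have h3 : Real.sqrt X ≤ X := by
      rw [Real.sqrt_le_left (Nat.cast_nonneg X)]
      have : (1 : ℝ) ≤ X := by exact_mod_cast hX
      nlinarith
    have h4 : (⌊ht X α⌋₊ : ℝ) ≤ X := (Nat.floor_le (by linarith)).trans (h2.trans h3)
    exact_mod_cast h4
  refine ⟨(Nat.log 2 (qd X α), Nat.log 2 ⌊ht X α⌋₊), ?_, ?_, ?_⟩
  · rw [mem_product, mem_range, mem_range]
    exact ⟨Nat.lt_succ_of_le (Nat.log_mono_right (b := 2) (q2.trans hsX)),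
      Nat.lt_succ_of_le (Nat.log_mono_right (b := 2) hfX)⟩
  · refine ⟨Nat.pow_log_le_self 2 hq0, Nat.lt_pow_succ_log_self (by norm_num) _, ?_, ?_⟩
    · have h3 : ((2 ^ Nat.log 2 ⌊ht X α⌋₊ : ℕ) : ℝ) ≤ (⌊ht X α⌋₊ : ℝ) := by
        exact_mod_cast Nat.pow_log_le_self 2 hf0
      push_cast at h3
      exact h3.trans (Nat.floor_le (by linarith))
    · have h3 : ⌊ht X α⌋₊ < 2 ^ (Nat.log 2 ⌊ht X α⌋₊ + 1) := Nat.lt_pow_succ_log_self (by norm_num) _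
      have h4 := (Nat.floor_lt' (by positivity)).1 h3
      push_cast at h4
      exact h4
  · rintro ⟨a, b⟩ ⟨k1, k2, k3, k4⟩
    have e1 : Nat.log 2 (qd X α) = a := Nat.log_eq_of_pow_le_of_lt_pow k1 k2
    have e2 : Nat.log 2 ⌊ht X α⌋₊ = b := by
      refine Nat.log_eq_of_pow_le_of_lt_pow (Nat.le_floor (by exact_mod_cast k3)) ?_
      rw [Nat.floor_lt' (by positivity)]
      exact_mod_cast k4
    rw [e1, e2]

theorem mt_log (X : ℕ) (hL : 1 ≤ Real.log X) :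
    ((Nat.log 2 X + 1 : ℕ) : ℝ) ≤ 3 * Real.log X := by
  have h1 : ((Nat.log 2 X : ℕ) : ℝ) ≤ Real.logb 2 X := by
    have := Real.natLog_le_logb X 2
    exact_mod_cast this
  have h2 : Real.logb 2 X ≤ 2 * Real.log X := by
    rw [Real.logb, div_le_iff₀ (Real.log_pos (by norm_num))]
    have := Real.log_two_gt_d9
    nlinarith
  push_cast
  linarith

theorem mt_len (X b K1 : ℕ) (hX : 1024 ≤ X) (hL : 1 ≤ Real.log X)
    (h1 : (Real.log X) ^ K1 / 2 < (2 : ℝ) ^ (b + 1)) (h2 : (2 : ℝ) ^ b ≤ Real.sqrt X) :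
    Real.sqrt X / 32 ≤ ((X / (16 * 2 ^ b) : ℕ) : ℝ) ∧
    ((X / (16 * 2 ^ b) : ℕ) : ℝ) ≤ X / (Real.log X) ^ K1 ∧
    ((X / (16 * 2 ^ b) : ℕ) : ℝ) ≤ X / (16 * 2 ^ b) := by
  have hXr : (1024 : ℝ) ≤ X := by exact_mod_cast hX
  have hX0 : (0 : ℝ) < X := by linarith
  have hs : 32 ≤ Real.sqrt X := by
    rw [Real.le_sqrt (by norm_num) hX0.le]
    linarith
  have hY : (0 : ℝ) < 2 ^ b := by positivity
  have hLK : (0 : ℝ) < (Real.log X) ^ K1 := by positivity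
  have h3 : ((X / (16 * 2 ^ b) : ℕ) : ℝ) ≤ X / (16 * 2 ^ b) := by
    have := @Nat.cast_div_le ℝ _ _ _ X (16 * 2 ^ b)
    push_cast at this
    exact this
  refine ⟨?_, ?_, h3⟩
  · have h4 : X < (X / (16 * 2 ^ b) + 1) * (16 * 2 ^ b) := by
      have := Nat.div_add_mod X (16 * 2 ^ b)
      have h5 := Nat.mod_lt X (show 0 < 16 * 2 ^ b by positivity)
      nlinarith
    have h5 : (X : ℝ) < (((X / (16 * 2 ^ b) : ℕ) : ℝ) + 1) * (16 * 2 ^ b) := by exact_mod_cast h4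
    have h6 : (X : ℝ) = Real.sqrt X * Real.sqrt X := (Real.mul_self_sqrt hX0.le).symm
    have h7 : (((X / (16 * 2 ^ b) : ℕ) : ℝ) + 1) * (16 * 2 ^ b) ≤
        (((X / (16 * 2 ^ b) : ℕ) : ℝ) + 1) * (16 * Real.sqrt X) :=
      mul_le_mul_of_nonneg_left (by linarith) (by positivity)
    have h8 : Real.sqrt X * Real.sqrt X < (((X / (16 * 2 ^ b) : ℕ) : ℝ) + 1) * 16 * Real.sqrt X := by
      calc Real.sqrt X * Real.sqrt X = X := h6.symm
        _ < (((X / (16 * 2 ^ b) : ℕ) : ℝ) + 1) * (16 * Real.sqrt X) := h5.trans_le h7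
        _ = _ := by ring
    have h9 : Real.sqrt X < (((X / (16 * 2 ^ b) : ℕ) : ℝ) + 1) * 16 :=
      lt_of_mul_lt_mul_right h8 (Real.sqrt_nonneg _)
    linarith
  · refine h3.trans ?_
    refine div_le_div_of_nonneg_left hX0.le hLK ?_
    rw [pow_succ] at h1
    linarith

theorem mt_rho (κ Cκ : ℝ) (hκ : 0 < κ) (hC1 : 1 ≤ Cκ) (K1 C : ℕ) (L X T Y q : ℝ)
    (hK1 : (C : ℝ) + 1 ≤ K1 * (κ / 2)) (hL : 1 ≤ L) (hLC : Cκ * (2 : ℝ) ^ (κ / 2) ≤ L)
    (hX : 0 < X) (hT : 0 ≤ T) (hY : 0 < Y) (hTX : T ≤ X / (16 * Y)) (hq0 : 0 ≤ q)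
    (hq : q ≤ 2 * Y) (hY2 : L ^ K1 / 2 < 2 * Y) (τ : ℝ) (hτ : τ ≤ Cκ * q ^ (κ / 2)) :
    (T / X) ^ κ * τ ≤ 1 / L ^ C := by
  have hκ2 : 0 < κ / 2 := by linarith
  have hY20 : 0 < 2 * Y := by linarith
  have hC0 : 0 < Cκ := by linarith
  have hL0 : 0 < L := by linarith
  have h1 : T / X ≤ (2 * Y)⁻¹ := by
    rw [div_le_iff₀ hX]
    refine hTX.trans ?_
    rw [div_eq_mul_inv, mul_comm X]
    refine mul_le_mul_of_nonneg_right ?_ hX.le
    exact inv_anti₀ hY20 (by linarith)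
  have h2 : (T / X) ^ κ ≤ ((2 * Y)⁻¹) ^ κ := Real.rpow_le_rpow (div_nonneg hT hX.le) h1 hκ.le
  have h3 : τ ≤ Cκ * (2 * Y) ^ (κ / 2) :=
    hτ.trans (mul_le_mul_of_nonneg_left (Real.rpow_le_rpow hq0 hq hκ2.le) hC0.le)
  have h4 : (T / X) ^ κ * τ ≤ ((2 * Y)⁻¹) ^ κ * (Cκ * (2 * Y) ^ (κ / 2)) := by
    refine (mul_le_mul_of_nonneg_left h3 (Real.rpow_nonneg (div_nonneg hT hX.le) _)).trans ?_
    exact mul_le_mul_of_nonneg_right h2 (by positivity)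
  refine h4.trans ?_
  have h5 : ((2 * Y)⁻¹) ^ κ = ((2 * Y) ^ (κ / 2))⁻¹ * ((2 * Y) ^ (κ / 2))⁻¹ := by
    rw [Real.inv_rpow hY20.le, ← mul_inv, ← Real.rpow_add hY20]
    congr 2
    ring
  have hP : 0 < (2 * Y) ^ (κ / 2) := Real.rpow_pos_of_pos hY20 _
  have h6 : ((2 * Y)⁻¹) ^ κ * (Cκ * (2 * Y) ^ (κ / 2)) = Cκ / (2 * Y) ^ (κ / 2) := by
    rw [h5]
    field_simp
  rw [h6, div_le_div_iff₀ hP (by positivity), one_mul]
  -- Cκ * L^C ≤ (2Y)^(κ/2)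
  have hLK : 0 < L ^ K1 / 2 := by positivity
  have h7 : (L ^ K1 / 2) ^ (κ / 2) ≤ (2 * Y) ^ (κ / 2) := Real.rpow_le_rpow hLK.le hY2.le hκ2.le
  refine le_trans ?_ h7
  rw [Real.div_rpow (by positivity) (by norm_num), le_div_iff₀ (Real.rpow_pos_of_pos (by norm_num) _)]
  have h8 : (L ^ K1) ^ (κ / 2) = L ^ ((K1 : ℝ) * (κ / 2)) := by
    rw [← Real.rpow_natCast L K1, ← Real.rpow_mul hL0.le]
  rw [h8]
  calc Cκ * L ^ C * (2 : ℝ) ^ (κ / 2) = (Cκ * (2 : ℝ) ^ (κ / 2)) * L ^ C := by ring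
    _ ≤ L * L ^ C := mul_le_mul_of_nonneg_right hLC (by positivity)
    _ = L ^ ((C : ℝ) + 1) := by
      rw [Real.rpow_add hL0, Real.rpow_natCast, Real.rpow_one]
      ring
    _ ≤ L ^ ((K1 : ℝ) * (κ / 2)) := Real.rpow_le_rpow_of_exponent_le hL hK1


open Classical in
/-- central arcs -/
noncomputable def tM (X : ℕ) (H : ℝ) (G : ℕ) (j : ZMod G) : ℂ :=
  if Ht H X (al G j) then 1 else 0

open Classical in
/-- large heights -/
noncomputable def tH (X : ℕ) (H B : ℝ) (G : ℕ) (j : ZMod G) : ℂ :=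
  if ¬ Ht H X (al G j) ∧ ∀ p : ℕ × ℕ, inBlk X p.1 p.2 (al G j) → B < (2 : ℝ) ^ p.2 then 1 else 0

open Classical in
/-- blocks of small height -/
noncomputable def tB (X : ℕ) (H B : ℝ) (G : ℕ) (p : ℕ × ℕ) (j : ZMod G) : ℂ :=
  if ¬ Ht H X (al G j) ∧ inBlk X p.1 p.2 (al G j) ∧ (2 : ℝ) ^ p.2 ≤ B then 1 else 0

theorem t_one (X : ℕ) (hX : 1 ≤ X) (H B : ℝ) (G : ℕ) (j : ZMod G) :
    (1 : ℂ) = tM X H G j + (tH X H B G j +
      ∑ p ∈ (range (Nat.log 2 X + 1)) ×ˢ (range (Nat.log 2 X + 1)), tB X H B G p j) := by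
  unfold tM tH tB
  by_cases hH : Ht H X (al G j)
  · simp [hH]
  · obtain ⟨p, hp, h1, h2⟩ := mt_blk X hX (al G j)
    by_cases hB : (2 : ℝ) ^ p.2 ≤ B
    · rw [Finset.sum_eq_single p]
      · rw [if_neg hH, if_neg, if_pos ⟨hH, h1, hB⟩]
        · ring
        · rintro ⟨-, h3⟩
          exact absurd (h3 p h1) (not_lt.2 hB)
      · intro p' _ hne
        rw [if_neg]
        rintro ⟨-, h3, -⟩
        exact hne (h2 p' h3)
      · intro h3
        exact absurd hp h3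
    · rw [Finset.sum_eq_zero]
      · rw [if_neg hH, if_pos]
        · ring
        · refine ⟨hH, fun p' hp' => ?_⟩
          rw [h2 p' hp']
          exact not_le.1 hB
      · intro p' _
        rw [if_neg]
        rintro ⟨-, h3, h4⟩
        rw [h2 p' h3] at h4
        exact hB h4

theorem t_norm (X : ℕ) (H B : ℝ) (G : ℕ) (p : ℕ × ℕ) (j : ZMod G) :
    ‖tM X H G j‖ ≤ 1 ∧ ‖tH X H B G j‖ ≤ 1 ∧ ‖tB X H B G p j‖ ≤ 1 := by
  unfold tM tH tB
  refine ⟨?_, ?_, ?_⟩ <;> split_ifs <;> simp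

theorem tH_supp (X : ℕ) (hX : 1 ≤ X) (H B : ℝ) (G : ℕ) (j : ZMod G) (h : tH X H B G j ≠ 0) :
    B < ht X (al G j) := by
  unfold tH at h
  have h1 : ¬ Ht H X (al G j) ∧ ∀ p : ℕ × ℕ, inBlk X p.1 p.2 (al G j) → B < (2 : ℝ) ^ p.2 := by
    by_contra h2
    exact h (if_neg h2)
  obtain ⟨p, -, h3, -⟩ := mt_blk X hX (al G j)
  exact (h1.2 p h3).trans_le h3.2.2.1

theorem tB_supp (X : ℕ) (H B : ℝ) (G : ℕ) (p : ℕ × ℕ) (j : ZMod G) (h : tB X H B G p j ≠ 0) :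
    ¬ Ht H X (al G j) ∧ inBlk X p.1 p.2 (al G j) ∧ (2 : ℝ) ^ p.2 ≤ B := by
  unfold tB at h
  by_contra h2
  exact h (if_neg h2)

/-- the hypothesis on progressions -/
def APh (th e κ : ℝ) (X K1 : ℕ) (E : Finset ℕ) : Prop :=
  ∀ (c : ℤ) (q T : ℕ), 1 ≤ q → (q : ℝ) ≤ (X : ℝ) ^ (1 - th + 3 * e) → q * T ≤ X →
    (X : ℝ) ^ (th - 3 * e) / 64 ≤ T → (T : ℝ) ≤ X / (Real.log X) ^ K1 →
    ((inAP E c q T).card : ℝ) ≤ ((T : ℝ) / X) ^ κ * E.card

/-- large heights: `NoAPH` -/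
theorem noaph_high (K1 : ℕ) (th e τ κ η : ℝ) (hA : Adm th e τ) (hκ : 0 < κ)
    (hη : η ≤ κ * (τ / 8)) : ∃ X0 : ℕ, ∀ X : ℕ, X0 ≤ X → ∀ (G : ℕ) [NeZero G],
    ∀ ω : ZMod G → ℂ, (∀ j, ω j ≠ 0 → (X : ℝ) ^ (τ / 8) < ht X (al G j)) → ∀ E : Finset ℕ,
    APh th e κ X K1 E → NoAPH G (dl th e) X ω E ((X : ℝ) ^ (-η)) := by
  obtain ⟨ht1, ht2, he0, hτ1, hτ2⟩ := id hA
  have hτ0 : 0 < τ := by linarith
  obtain ⟨X1, h1⟩ := MP_log_pow 8 K1 (ε := τ / 8) (by linarith)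
  obtain ⟨X2, h2⟩ := MP_log_pow 64 0 (ε := 1 / 16) (by norm_num)
  refine ⟨max X1 (max X2 4), fun X hX G _ ω hω E hE j hj d hd t ht3 ht4 c => ?_⟩
  simp only [max_le_iff] at hX
  obtain ⟨g1, g2, g3⟩ := hX
  have hX1 : 1 ≤ X := by omega
  have hXr : (4 : ℝ) ≤ X := by exact_mod_cast g3
  have hX0 : (0 : ℝ) < X := by linarith
  have hX1r : (1 : ℝ) ≤ X := by linarith
  have k1 := h1 X g1
  have k2 := h2 X g2
  rw [pow_zero, mul_one] at k2
  have k2' : (64 : ℝ) ≤ (X : ℝ) ^ (1 / 8 : ℝ) :=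
    k2.trans (Real.rpow_le_rpow_of_exponent_le hX1r (by norm_num))
  set α := al G j with hα
  have hht := hω j hj
  unfold Apd at hd
  rw [Finset.mem_filter, Finset.mem_Icc] at hd
  obtain ⟨⟨d1, d2⟩, d3, d4⟩ := hd
  have hy3 : y3 (dl th e) X = (X : ℝ) ^ (1 - th + 3 * e) := y3_dl th e X
  have hy0 : 0 ≤ (X : ℝ) ^ (1 - th + 3 * e) := by positivity
  rw [hy3] at d2 d3
  have d2' : (d : ℝ) ≤ (X : ℝ) ^ (1 - th + 3 * e) := (Nat.le_floor_iff hy0).1 d2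
  have hhd : hd X α d ≤ (X : ℝ) ^ (1 - th + 3 * e) := max_le d2' d3
  have hdr : (1 : ℝ) ≤ d := by exact_mod_cast d1
  -- the height of `d` is large
  have hbig : (X : ℝ) ^ (τ / 8) < hd X α d := by
    have hs0 : 0 < Real.sqrt X := Real.sqrt_pos.2 hX0
    have hsb : (X : ℝ) ^ (τ / 8) < Real.sqrt X / 4 := by
      have e1 : (X : ℝ) ^ (τ / 8) ≤ (X : ℝ) ^ (1 / 8 : ℝ) :=
        Real.rpow_le_rpow_of_exponent_le hX1r (by linarith)
      have e2 : Real.sqrt X = (X : ℝ) ^ (3 / 8 : ℝ) * (X : ℝ) ^ (1 / 8 : ℝ) := by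
        rw [Real.sqrt_eq_rpow, ← Real.rpow_add hX0]
        norm_num
      have e3 : (X : ℝ) ^ (1 / 8 : ℝ) ≤ (X : ℝ) ^ (3 / 8 : ℝ) :=
        Real.rpow_le_rpow_of_exponent_le hX1r (by norm_num)
      rw [e2]
      have e4 : 64 * (X : ℝ) ^ (1 / 8 : ℝ) ≤ (X : ℝ) ^ (3 / 8 : ℝ) * (X : ℝ) ^ (1 / 8 : ℝ) :=
        mul_le_mul_of_nonneg_right (k2'.trans e3) (by positivity)
      have e5 : 0 < (X : ℝ) ^ (1 / 8 : ℝ) := by positivity
      linarith
    by_cases hc1 : (d : ℝ) < Real.sqrt X / 4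
    · by_cases hc2 : nrm ((d : ℝ) * α) < 1 / (4 * Real.sqrt X)
      · obtain ⟨n1, n2⟩ := near_frac X hX1 α d d1 hc1 hc2
        have e1 : hd X α d = ((d : ℝ) / (qd X α : ℝ)) * ht X α := n2
        obtain ⟨q1, -, -, -⟩ := qd_spec X hX1 α
        have hq0 : (0 : ℝ) < qd X α := by exact_mod_cast q1
        have e2 : 1 ≤ (d : ℝ) / (qd X α : ℝ) := by
          rw [one_le_div hq0]
          exact_mod_cast Nat.le_of_dvd (by omega) n1
        have e3 : 0 ≤ ht X α := le_trans (by positivity) hht.le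
        rw [e1]
        calc (X : ℝ) ^ (τ / 8) < ht X α := hht
          _ = 1 * ht X α := (one_mul _).symm
          _ ≤ _ := mul_le_mul_of_nonneg_right e2 e3
      · push Not at hc2
        refine hsb.trans_le (le_trans ?_ (le_max_right _ _))
        have e1 : (X : ℝ) * (1 / (4 * Real.sqrt X)) = Real.sqrt X / 4 := by
          have : (X : ℝ) = Real.sqrt X * Real.sqrt X := (Real.mul_self_sqrt hX0.le).symm
          nth_rewrite 1 [this]
          field_simp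
        rw [← e1]
        exact mul_le_mul_of_nonneg_left hc2 hX0.le
    · push Not at hc1
      exact hsb.trans_le (hc1.trans (le_max_left _ _))
  have hY : (0 : ℝ) < 2 ^ t := by positivity
  set T := X / (16 * 2 ^ t) with hT
  have hT1 : (T : ℝ) ≤ X / (16 * 2 ^ t) := by
    have := @Nat.cast_div_le ℝ _ _ _ X (16 * 2 ^ t)
    push_cast at this
    exact this
  have hT2 : (X : ℝ) / (16 * 2 ^ t) < T + 1 := by
    have h4 : X < (T + 1) * (16 * 2 ^ t) := by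
      have := Nat.div_add_mod X (16 * 2 ^ t)
      have h5 := Nat.mod_lt X (show 0 < 16 * 2 ^ t by positivity)
      rw [hT]
      nlinarith
    rw [div_lt_iff₀ (by positivity)]
    exact_mod_cast h4
  have h2t : (X : ℝ) ^ (τ / 8) < 2 * 2 ^ t := by
    have : hd X α d < 2 * 2 ^ t := by
      calc hd X α d < 2 ^ (t + 1) := ht4
        _ = 2 * 2 ^ t := by rw [pow_succ]; ring
    exact hbig.trans this
  have hdt : d < 2 ^ (t + 1) := by
    have : (d : ℝ) < 2 ^ (t + 1) := (le_max_left _ _).trans_lt ht4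
    exact_mod_cast this
  have hp0 : 0 < (X : ℝ) ^ (τ / 8) := by positivity
  have hTX : (T : ℝ) ≤ X / (8 * (X : ℝ) ^ (τ / 8)) := by
    refine hT1.trans (div_le_div_of_nonneg_left hX0.le (by positivity) ?_)
    linarith
  refine (hE c d T d1 d2' ?_ ?_ ?_).trans ?_
  · have h5 : d ≤ 16 * 2 ^ t := by
      rw [pow_succ] at hdt
      omega
    calc d * T ≤ (16 * 2 ^ t) * T := Nat.mul_le_mul_right _ h5
      _ ≤ X := by
          rw [hT]
          exact Nat.mul_div_le _ _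
  · have e1 : (2 : ℝ) ^ t ≤ (X : ℝ) ^ (1 - th + 3 * e) := ht3.trans hhd
    have e2 : (X : ℝ) / (X : ℝ) ^ (1 - th + 3 * e) = (X : ℝ) ^ (th - 3 * e) := by
      have : (X : ℝ) = (X : ℝ) ^ (1 : ℝ) := (Real.rpow_one _).symm
      nth_rewrite 1 [this]
      rw [← Real.rpow_sub hX0]
      congr 1
      ring
    have e3 : (X : ℝ) ^ (th - 3 * e) / 16 ≤ X / (16 * 2 ^ t) := by
      rw [← e2, div_div]
      refine div_le_div_of_nonneg_left hX0.le (by positivity) ?_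
      rw [mul_comm]
      exact mul_le_mul_of_nonneg_right e1 (by norm_num)
    have e4 : (64 : ℝ) ≤ (X : ℝ) ^ (th - 3 * e) :=
      k2.trans (Real.rpow_le_rpow_of_exponent_le hX1r (by linarith))
    linarith
  · refine hTX.trans (div_le_div_of_nonneg_left hX0.le ?_ ?_)
    · have : 0 < Real.log X := Real.log_pos (by linarith)
      positivity
    · have : 0 ≤ (Real.log X) ^ K1 := by
        have : 0 < Real.log X := Real.log_pos (by linarith)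
        positivity
      linarith
  · refine mul_le_mul_of_nonneg_right ?_ (Nat.cast_nonneg _)
    have e1 : (T : ℝ) / X ≤ (X : ℝ) ^ (-(τ / 8)) := by
      rw [div_le_iff₀ hX0, Real.rpow_neg hX0.le, inv_mul_eq_div]
      refine hTX.trans (div_le_div_of_nonneg_left hX0.le hp0 ?_)
      linarith
    calc ((T : ℝ) / X) ^ κ ≤ ((X : ℝ) ^ (-(τ / 8))) ^ κ :=
          Real.rpow_le_rpow (by positivity) e1 hκ.le
      _ = (X : ℝ) ^ (-(κ * (τ / 8))) := by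
          rw [← Real.rpow_mul hX0.le]
          congr 1
          ring
      _ ≤ (X : ℝ) ^ (-η) := Real.rpow_le_rpow_of_exponent_le hX1r (by linarith)

/-- small heights: `NoAP` -/
theorem noap_low (C : ℕ) (th e τ κ : ℝ) (hA : Adm th e τ) (hκ : 0 < κ) (K1 : ℕ)
    (hK1 : (C : ℝ) + 1 ≤ K1 * (κ / 2)) : ∃ X0 : ℕ, ∀ X : ℕ, X0 ≤ X → ∀ (G : ℕ) [NeZero G],
    ∀ (p : ℕ × ℕ) (B : ℝ) (E : Finset ℕ), APh th e κ X K1 E →
    NoAP G X p.2 (tB X ((Real.log X) ^ K1) B G p) E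
      ((((X / (16 * 2 ^ p.2) : ℕ) : ℝ) / X) ^ κ) (1 / (Real.log X) ^ C) := by
  obtain ⟨ht1, ht2, he0, hτ1, hτ2⟩ := id hA
  obtain ⟨Cκ, hCκ1, hCκ⟩ := GX.div_pow (κ / 2) (by linarith)
  obtain ⟨X3, hX3⟩ := Filter.eventually_atTop.1
    ((Real.tendsto_log_atTop.comp tendsto_natCast_atTop_atTop).eventually
      (Filter.eventually_ge_atTop (max 10 (Cκ * (2 : ℝ) ^ (κ / 2)))))
  refine ⟨max X3 1024, fun X hX G _ p B E hE j hj => ?_⟩
  have k3 : X3 ≤ X := (le_max_left _ _).trans hX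
  have k4 : 1024 ≤ X := (le_max_right _ _).trans hX
  have hLb : max 10 (Cκ * (2 : ℝ) ^ (κ / 2)) ≤ Real.log X := hX3 X k3
  set L := Real.log X with hLdef
  have hL10 : 10 ≤ L := (le_max_left _ _).trans hLb
  have hLC : Cκ * (2 : ℝ) ^ (κ / 2) ≤ L := (le_max_right _ _).trans hLb
  have hL1 : 1 ≤ L := by linarith
  have hX1024 : (1024 : ℝ) ≤ X := by exact_mod_cast k4
  have hX0 : (0 : ℝ) < X := by linarith
  have hX1r : (1 : ℝ) ≤ X := by linarith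
  have hXone : 1 ≤ X := by omega
  obtain ⟨hj1, ⟨b1, b2, b3, b4⟩, -⟩ := tB_supp X (L ^ K1) B G p j hj
  obtain ⟨q1, q2, -, -⟩ := qd_spec X hXone (al G j)
  obtain ⟨t1, t2, t3, -⟩ := ht_spec X hXone (al G j)
  have hlarge := ht_large X hXone (al G j) (L ^ K1) hj1
  set q := qd X (al G j) with hq
  have c1 : L ^ K1 / 2 < (2 : ℝ) ^ (p.2 + 1) := hlarge.trans b4
  have c2 : (2 : ℝ) ^ p.2 ≤ Real.sqrt X := b3.trans t2
  obtain ⟨l1, l2, l3⟩ := mt_len X p.2 K1 k4 hL1 c1 c2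
  have hqlt : (q : ℝ) < (2 : ℝ) ^ (p.2 + 1) := t3.trans_lt b4
  have hqltN : q < 2 ^ (p.2 + 1) := by exact_mod_cast hqlt
  have hsq1 : Real.sqrt X ≤ (X : ℝ) ^ (1 - th + 3 * e) := by
    rw [Real.sqrt_eq_rpow]
    exact Real.rpow_le_rpow_of_exponent_le hX1r (by linarith)
  have hsq2 : (X : ℝ) ^ (th - 3 * e) ≤ Real.sqrt X := by
    rw [Real.sqrt_eq_rpow]
    exact Real.rpow_le_rpow_of_exponent_le hX1r (by linarith)
  refine ⟨?_, fun c => hE c q _ q1 ((t3.trans t2).trans hsq1) ?_ ?_ l2⟩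
  · refine mt_rho κ Cκ hκ hCκ1 K1 C L X _ ((2 : ℝ) ^ p.2) q hK1 hL1 hLC hX0
      (Nat.cast_nonneg _) (by positivity) l3 (Nat.cast_nonneg _) ?_ ?_ _ (hCκ q q1)
    · rw [pow_succ] at hqlt
      linarith
    · rw [pow_succ] at c1
      linarith
  · have h1 : q ≤ 16 * 2 ^ p.2 := by
      rw [pow_succ] at hqltN
      omega
    calc q * (X / (16 * 2 ^ p.2)) ≤ (16 * 2 ^ p.2) * (X / (16 * 2 ^ p.2)) :=
          Nat.mul_le_mul_right _ h1
      _ ≤ X := Nat.mul_div_le _ _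
  · have : 0 ≤ (X : ℝ) ^ (th - 3 * e) := by positivity
    linarith

/-! ### Assembly -/

theorem phU_wadd (G : ℕ) [NeZero G] (X n : ℕ) (U : ZMod G → ℂ) (v : ℕ → ℝ)
    (ω ω1 ω2 : ZMod G → ℂ) (h : ∀ j, ω j = ω1 j + ω2 j) :
    PhU G X U v ω n = PhU G X U v ω1 n + PhU G X U v ω2 n := by
  unfold PhU
  rw [← mul_add, ← sum_add_distrib]
  congr 1
  refine sum_congr rfl fun j _ => ?_
  rw [h]
  ring

theorem phU_wsum {ι : Type*} (G : ℕ) [NeZero G] (X n : ℕ) (U : ZMod G → ℂ) (v : ℕ → ℝ)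
    (P : Finset ι) (ω : ι → ZMod G → ℂ) :
    PhU G X U v (fun j => ∑ p ∈ P, ω p j) n = ∑ p ∈ P, PhU G X U v (ω p) n := by
  unfold PhU
  rw [← mul_sum, sum_comm]
  congr 1
  refine sum_congr rfl fun j _ => ?_
  rw [sum_mul, sum_mul, sum_mul]

theorem phU_smul (G : ℕ) [NeZero G] (X n : ℕ) (U : ZMod G → ℂ) (v : ℕ → ℝ) (ω : ZMod G → ℂ)
    (c : ℂ) : PhU G X (fun j => c * U j) v ω n = c * PhU G X U v ω n := by
  unfold PhU
  rw [← mul_assoc, mul_comm c, mul_assoc, Finset.mul_sum univ _ c]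
  congr 1
  refine sum_congr rfl fun j _ => ?_
  ring

theorem nm2_smul (G : ℕ) [NeZero G] (U : ZMod G → ℂ) (c : ℝ) :
    nm2 G (fun j => (c : ℂ) * U j) = c ^ 2 * nm2 G U := by
  unfold nm2
  rw [← mul_assoc, mul_comm (c ^ 2), mul_assoc, Finset.mul_sum univ _ (c ^ 2)]
  congr 1
  refine sum_congr rfl fun j _ => ?_
  rw [norm_mul, mul_pow, Complex.norm_real, Real.norm_eq_abs, sq_abs]

theorem sum_triv (E : Finset ℕ) (ph F : ℕ → ℂ) (hph : ∀ n, ‖ph n‖ ≤ 1) (B : ℝ)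
    (h : ∀ n ∈ E, ‖F n‖ ≤ B) : ‖∑ n ∈ E, ph n * F n‖ ≤ E.card * B := by
  refine (norm_sum_le _ _).trans ?_
  rw [← nsmul_eq_mul]
  refine sum_le_card_nsmul _ _ _ fun n hn => ?_
  rw [norm_mul]
  calc ‖ph n‖ * ‖F n‖ ≤ 1 * ‖F n‖ := mul_le_mul_of_nonneg_right (hph n) (norm_nonneg _)
    _ = ‖F n‖ := one_mul _
    _ ≤ B := h n hn

/-- one block of small height for `VBH` -/
theorem blk_low (A C CV : ℕ) : ∃ C' : ℕ, ∀ th e τ : ℝ, Adm th e τ → ∃ X0 : ℕ, ∀ X : ℕ, X0 ≤ X →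
    ∀ (G : ℕ) [NeZero G], 3 * X ≤ G → ∀ U : ZMod G → ℂ, VBH G X CV U → ∀ u : ℕ → ℝ,
    Str C th e τ X u → ∀ (a b : ℕ) (ω : ZMod G → ℂ), Wt G X a b ω →
    (2 : ℝ) ^ b ≤ (X : ℝ) ^ (τ / 8) → ∀ E : Finset ℕ, E ⊆ Icc 1 X →
    ∀ ph : ℕ → ℂ, (∀ n, ‖ph n‖ ≤ 1) → ∀ ρ : ℝ, 0 ≤ ρ →
    NoAP G X b ω E ρ (1 / (Real.log X) ^ C') →
    ‖∑ n ∈ E, ph n * PhU G X U u ω n‖ ≤ X * E.card / (Real.log X) ^ A := by
  obtain ⟨C', h⟩ := st_low (A + CV) C
  refine ⟨C', fun th e τ hA => ?_⟩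
  obtain ⟨X1, h1⟩ := h th e τ hA
  obtain ⟨X2, h2⟩ := MP_log_large 1
  refine ⟨max X1 X2, fun X hX G _ hG U hU u hu a b ω hω hb E hE ph hph ρ hρ hno => ?_⟩
  simp only [max_le_iff] at hX
  have hL := h2 X hX.2
  set L := Real.log X with hLdef
  have L0 : 0 < L := by linarith
  have hLC0 : 0 < L ^ CV := by positivity
  have hLC1 : 1 ≤ L ^ CV := one_le_pow₀ hL
  have hXr : (0 : ℝ) ≤ X := Nat.cast_nonneg _
  set c : ℝ := (L ^ CV)⁻¹ with hc
  have hc0 : 0 < c := by positivity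
  have hcl : c * L ^ CV = 1 := inv_mul_cancel₀ hLC0.ne'
  have hc1 : c ≤ 1 := inv_le_one_of_one_le₀ hLC1
  have hU' : VB G X (fun j => (c : ℂ) * U j) := by
    refine ⟨?_, fun j => ?_⟩
    · rw [nm2_smul]
      calc c ^ 2 * nm2 G U ≤ c ^ 2 * (X * L ^ CV) := mul_le_mul_of_nonneg_left hU.1 (by positivity)
        _ = c * X * (c * L ^ CV) := by ring
        _ = c * X := by rw [hcl, mul_one]
        _ ≤ 1 * X := mul_le_mul_of_nonneg_right hc1 hXr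
        _ ≤ 9 * X * L ^ 2 := by nlinarith [one_le_pow₀ (n := 2) hL]
    · rw [norm_mul, Complex.norm_real, Real.norm_eq_abs, abs_of_pos hc0]
      calc c * ‖U j‖ ≤ c * (X * L ^ CV) := mul_le_mul_of_nonneg_left (hU.2 j) hc0.le
        _ = X * (c * L ^ CV) := by ring
        _ = X := by rw [hcl, mul_one]
        _ ≤ 3 * X * L := by nlinarith
  have h3 := h1 X hX.1 G hG _ hU' u hu a b ω hω hb E hE ph hph ρ hρ hno
  have h4 : ∑ n ∈ E, ph n * PhU G X (fun j => (c : ℂ) * U j) u ω n =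
      (c : ℂ) * ∑ n ∈ E, ph n * PhU G X U u ω n := by
    rw [mul_sum]
    refine sum_congr rfl fun n _ => ?_
    rw [phU_smul]
    ring
  rw [h4, norm_mul, Complex.norm_real, Real.norm_eq_abs, abs_of_pos hc0, pow_add] at h3
  have h5 : X * E.card / (L ^ A * L ^ CV) = c * (X * E.card / L ^ A) := by
    rw [hc]
    field_simp
  rw [h5] at h3
  exact le_of_mul_le_mul_left h3 hc0

/-- the main theorem -/
theorem mt_t (A CV : ℕ) : ∃ B : ℕ, ∀ K0 C1 C2 K : ℕ, ∀ κ : ℝ, 0 < κ → ∃ K1 : ℕ, K ≤ K1 ∧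
    ∀ th e τ : ℝ, Adm th e τ → ∀ ww gg : ℕ → ℕ → ℝ, W1 K0 C1 ww gg → DecJ B C2 th e τ ww →
    MajI ww gg → ∃ D0 : ℕ, ∀ D' : ℕ, D0 ≤ D' → ∃ X0 : ℕ, ∀ X : ℕ, X0 ≤ X → ∀ (G : ℕ) [NeZero G],
    X ^ 5 ≤ G → ∀ U : ZMod G → ℂ, VBH G X CV U → ∀ E : Finset ℕ, E ⊆ Icc 1 X →
    (X : ℝ) ^ (th - e) ≤ E.card → APh th e κ X K1 E → ∀ ph : ℕ → ℂ, (∀ n, ‖ph n‖ ≤ 1) →
    ‖∑ n ∈ E, ph n * PhU G X U (cfI ww gg (-1) (wX D' X) X) (fun _ => 1) n‖ ≤
      X * E.card / (Real.log X) ^ A := by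
  obtain ⟨B, hB⟩ := JX.strWJ (2 * (A + 1) + CV)
  refine ⟨B, fun K0 C1 C2 K κ hκ => ?_⟩
  obtain ⟨C, hC⟩ := hB K0 C1 C2
  obtain ⟨C', hC'⟩ := blk_low (A + 4) C CV
  obtain ⟨K1, hK1⟩ := exists_nat_ge (max (K : ℝ) (((C' : ℝ) + 1) / (κ / 2)))
  have hKK : K ≤ K1 := by exact_mod_cast (le_max_left _ _).trans hK1
  have hK1' : (C' : ℝ) + 1 ≤ K1 * (κ / 2) := by
    have h := (le_max_right _ _).trans hK1
    rwa [div_le_iff₀ (by linarith)] at h
  refine ⟨K1, hKK, fun th e τ hA ww gg hW hD hM => ?_⟩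
  obtain ⟨ht1, ht2, he0, hτ1, hτ2⟩ := id hA
  have hτ0 : 0 < τ := by linarith
  obtain ⟨D0, hD0⟩ := maj_t K1 CV (A + 1) ww gg hM
  refine ⟨max D0 1, fun D' hD' => ?_⟩
  obtain ⟨X1, h1⟩ := hD0 D' ((le_max_left _ _).trans hD')
  obtain ⟨X2, h2⟩ := hC th e τ hA ww gg hW hD D' ((le_max_right _ _).trans hD')
  obtain ⟨X3, h3⟩ := hC' th e τ hA
  obtain ⟨η, hη⟩ : ∃ η : ℝ, η = min e (κ * (τ / 8)) := ⟨_, rfl⟩
  have hη0 : 0 < η := by
    rw [hη]
    refine lt_min he0 (by positivity)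
  have hη1 : η ≤ e := by
    rw [hη]
    exact min_le_left _ _
  have hη2 : η ≤ κ * (τ / 8) := by
    rw [hη]
    exact min_le_right _ _
  obtain ⟨X4, h4⟩ := st_l C CV th e τ η hA hη0 hη1
  obtain ⟨X5, h5⟩ := noaph_high K1 th e τ κ η hA hκ hη2
  obtain ⟨X6, h6⟩ := noap_low C' th e τ κ hA hκ K1 hK1'
  obtain ⟨X7, h7⟩ := MP_log_pow 1 (A + 1) (ε := η / 100) (by linarith)
  obtain ⟨X8, h8⟩ := MP_log_large 9
  refine ⟨max (max (max X1 X2) (max X3 X4)) (max (max X5 X6) (max (max X7 X8) 2)),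
    fun X hX G _ hG U hU E hE hcard hap ph hph => ?_⟩
  simp only [max_le_iff] at hX
  obtain ⟨⟨⟨g1, g2⟩, g3, g4⟩, ⟨g5, g6⟩, ⟨g7, g8⟩, g9⟩ := hX
  have hXone : 1 ≤ X := by omega
  have hXr : (1 : ℝ) ≤ X := by exact_mod_cast hXone
  have hX0 : (0 : ℝ) < X := by linarith
  have hG3 : 3 * X ≤ G := by
    have e1 : 3 * X ≤ X ^ 5 := by
      have e2 : 2 ^ 4 ≤ X ^ 4 := Nat.pow_le_pow_left g9 4
      calc 3 * X ≤ X ^ 4 * X := Nat.mul_le_mul_right _ (by omega)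
        _ = X ^ 5 := by ring
    exact e1.trans hG
  have hXG : X < G := by omega
  have hL9 := h8 X g8
  have hLp := h7 X g7
  rw [one_mul] at hLp
  obtain ⟨u, err, hu, huv, herr⟩ := h2 X g2 (-1) (by norm_num)
  have hm := h1 X g1 G hG3 U hU
  have hlo := h3 X g3 G hG3 U hU u hu
  have hhi := h4 X g4 G hG U hU u hu
  have hnh := h5 X g5 G
  have hnl := h6 X g6 G
  set L := Real.log X with hLdef
  have L0 : 0 < L := by linarith
  have hL1 : 1 ≤ L := by linarith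
  obtain ⟨Bb, hBb⟩ : ∃ Bb : ℝ, Bb = (X : ℝ) ^ (τ / 8) := ⟨_, rfl⟩
  obtain ⟨v, hv⟩ : ∃ v : ℕ → ℝ, v = cfI ww gg (-1) (wX D' X) X := ⟨_, rfl⟩
  rw [← hv] at hm ⊢
  have hvu : ∀ m ∈ Icc 1 X, v m = u m + err m := by
    intro m hm'
    rw [hv]
    exact huv m hm'
  set P := (range (Nat.log 2 X + 1)) ×ˢ (range (Nat.log 2 X + 1)) with hP
  set ω0 : ZMod G → ℂ := tM X (L ^ K1) G with hω0
  set ω1 : ZMod G → ℂ := tH X (L ^ K1) Bb G with hω1
  set ω2 : ZMod G → ℂ := fun j => ∑ p ∈ P, tB X (L ^ K1) Bb G p j with hω2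
  have hone : ∀ j, (1 : ℂ) = ω0 j + (ω1 j + ω2 j) := fun j => t_one X hXone (L ^ K1) Bb G j
  have hR1 : ∀ j, ‖ω1 j + ω2 j‖ ≤ 1 := by
    intro j
    have e1 : ω1 j + ω2 j = 1 - ω0 j := by
      rw [hone j]
      ring
    rw [e1, hω0]
    unfold tM
    split_ifs <;> simp
  -- the decomposition
  have hdec : ∀ n, PhU G X U v (fun _ => 1) n = PhU G X U v ω0 n +
      (PhU G X U err (fun j => ω1 j + ω2 j) n + (PhU G X U u ω1 n +
        ∑ p ∈ P, PhU G X U u (tB X (L ^ K1) Bb G p) n)) := by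
    intro n
    rw [phU_wadd G X n U v (fun _ => 1) ω0 (fun j => ω1 j + ω2 j) hone,
      phU_add G X n U v u err (fun j => ω1 j + ω2 j) hvu,
      phU_wadd G X n U u (fun j => ω1 j + ω2 j) ω1 ω2 (fun _ => rfl), hω2, phU_wsum]
    ring
  have hsum : ∑ n ∈ E, ph n * PhU G X U v (fun _ => 1) n =
      ∑ n ∈ E, ph n * PhU G X U v ω0 n + (∑ n ∈ E, ph n * PhU G X U err (fun j => ω1 j + ω2 j) n +
        (∑ n ∈ E, ph n * PhU G X U u ω1 n +
          ∑ p ∈ P, ∑ n ∈ E, ph n * PhU G X U u (tB X (L ^ K1) Bb G p) n)) := by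
    rw [sum_comm (s := P), ← sum_add_distrib, ← sum_add_distrib, ← sum_add_distrib]
    refine sum_congr rfl fun n _ => ?_
    rw [hdec, ← mul_sum]
    ring
  have hE0 : (0 : ℝ) ≤ E.card := Nat.cast_nonneg _
  -- centre
  have t0 : ‖∑ n ∈ E, ph n * PhU G X U v ω0 n‖ ≤ X * E.card / L ^ (A + 1) := by
    refine (sum_triv E ph _ hph (X / L ^ (A + 1)) fun n _ => ?_).trans (le_of_eq (by ring))
    refine hm ω0 (fun j => (t_norm X (L ^ K1) Bb G (0, 0) j).1) (fun j hj => ?_) n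
    rw [hω0] at hj
    unfold tM at hj
    by_contra hcon
    exact hj (if_neg hcon)
  -- the error
  have t1 : ‖∑ n ∈ E, ph n * PhU G X U err (fun j => ω1 j + ω2 j) n‖ ≤
      X * E.card / L ^ (A + 1) := by
    refine (sum_triv E ph _ hph (X / L ^ (A + 1)) fun n _ => ?_).trans (le_of_eq (by ring))
    have e1 := phU_cauchy G X U err (fun j => ω1 j + ω2 j) hR1 n
    have e2 : nm2 G (tr G X err) ≤ X / L ^ (2 * (A + 1) + CV) := by
      unfold nm2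
      rw [parseval G X hXG]
      exact herr
    have e3 : nm2 G U ≤ X * L ^ CV := hU.1
    have e4 : ‖PhU G X U err (fun j => ω1 j + ω2 j) n‖ ^ 2 ≤ (X / L ^ (A + 1)) ^ 2 := by
      refine e1.trans ?_
      calc nm2 G U * nm2 G (tr G X err) ≤ (X * L ^ CV) * (X / L ^ (2 * (A + 1) + CV)) :=
            mul_le_mul e3 e2 (by unfold nm2; positivity) (by positivity)
        _ = (X / L ^ (A + 1)) ^ 2 := by
            rw [pow_add L (2 * (A + 1)) CV, pow_mul' L 2 (A + 1)]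
            field_simp
    exact le_of_sq_le_sq e4 (by positivity)
  -- large heights
  have t2 : ‖∑ n ∈ E, ph n * PhU G X U u ω1 n‖ ≤ X * E.card / L ^ (A + 1) := by
    refine (hhi ω1 (fun j => (t_norm X (L ^ K1) Bb G (0, 0) j).2.1) E hE hcard ph hph
      (hnh ω1 (fun j hj => ?_) E hap)).trans ?_
    · rw [← hBb]
      exact tH_supp X hXone (L ^ K1) Bb G j hj
    · rw [Real.rpow_sub hX0, Real.rpow_one, div_mul_eq_mul_div]
      exact div_le_div_of_nonneg_left (by positivity) (by positivity) hLp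
  -- blocks
  have t3 : ‖∑ p ∈ P, ∑ n ∈ E, ph n * PhU G X U u (tB X (L ^ K1) Bb G p) n‖ ≤
      X * E.card / L ^ (A + 1) := by
    have hb : ∀ p ∈ P, ‖∑ n ∈ E, ph n * PhU G X U u (tB X (L ^ K1) Bb G p) n‖ ≤
        X * E.card / L ^ (A + 4) := by
      intro p _
      by_cases hp : (2 : ℝ) ^ p.2 ≤ Bb
      · refine hlo p.1 p.2 (tB X (L ^ K1) Bb G p)
          ⟨fun j => (t_norm X (L ^ K1) Bb G p j).2.2, fun j hj => ?_⟩ ?_ E hE ph hph _ ?_
          (hnl p Bb E hap)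
        · exact (tB_supp X (L ^ K1) Bb G p j hj).2.1
        · rw [← hBb]
          exact hp
        · positivity
      · have hz : ∀ j, tB X (L ^ K1) Bb G p j = 0 := by
          intro j
          by_contra hcon
          exact hp (tB_supp X (L ^ K1) Bb G p j hcon).2.2
        have hz2 : ∀ n, PhU G X U u (tB X (L ^ K1) Bb G p) n = 0 := by
          intro n
          unfold PhU
          rw [Finset.sum_eq_zero]
          · rw [mul_zero]
          · intro j _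
            rw [hz j]
            ring
        rw [Finset.sum_eq_zero]
        · rw [norm_zero]
          positivity
        · intro n _
          rw [hz2, mul_zero]
    have hP3 : (P.card : ℝ) ≤ 9 * L ^ 2 := by
      rw [hP, card_product, card_range]
      push_cast
      have e1 := mt_log X hL1
      push_cast at e1
      calc ((Nat.log 2 X : ℝ) + 1) * ((Nat.log 2 X : ℝ) + 1) ≤ (3 * L) * (3 * L) :=
            mul_le_mul e1 e1 (by positivity) (by positivity)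
        _ = 9 * L ^ 2 := by ring
    refine (norm_sum_le _ _).trans ((sum_le_card_nsmul _ _ _ hb).trans ?_)
    rw [nsmul_eq_mul]
    calc (P.card : ℝ) * (X * E.card / L ^ (A + 4)) ≤ (L * L ^ 2) * (X * E.card / L ^ (A + 4)) := by
          refine mul_le_mul_of_nonneg_right (hP3.trans ?_) (by positivity)
          exact mul_le_mul_of_nonneg_right hL9 (by positivity)
      _ = X * E.card / L ^ (A + 1) := by
          have : L ^ (A + 4) = L ^ (A + 1) * (L * L ^ 2) := by ring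
          rw [this]
          field_simp
  rw [hsum]
  refine (norm_add_le _ _).trans ?_
  have s1 := norm_add_le (∑ n ∈ E, ph n * PhU G X U err (fun j => ω1 j + ω2 j) n)
    (∑ n ∈ E, ph n * PhU G X U u ω1 n +
      ∑ p ∈ P, ∑ n ∈ E, ph n * PhU G X U u (tB X (L ^ K1) Bb G p) n)
  have s2 := norm_add_le (∑ n ∈ E, ph n * PhU G X U u ω1 n)
    (∑ p ∈ P, ∑ n ∈ E, ph n * PhU G X U u (tB X (L ^ K1) Bb G p) n)
  have s3 : 4 * (X * E.card / L ^ (A + 1)) ≤ X * E.card / L ^ A := by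
    rw [pow_succ, ← div_div, ← mul_div_assoc, div_le_iff₀ L0, mul_comm]
    exact mul_le_mul_of_nonneg_left (by linarith) (by positivity)
  linarith

end Pool.MP_dd84fd_nt.TX
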